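import Mathlib
import Pool.Agent.H152.TT.Defs
import Pool.Agent.H152.TT.Classes
import Pool.Agent.H152.TT.Linear
import Pool.Agent.H152.TT.Deletion
import Pool.Agent.H152.TT.Feedback

set_option autoImplicit false

open Finset

namespace Pool.Agent.Results.MP_ac0d5f_co.GeneralBound

open H152TT

/-- an upper bound for the ordered number and a lower bound for the unordered one -/
theorem ratio_of {k : ℕ} (P : SimpleGraph (Fin k)) (α β : ℝ)
    (hup : ∀ ε : ℝ, 0 < ε → ∃ N : ℕ, ∀ n : ℕ, N ≤ n → (exOrd P n : ℝ) ≤ (n : ℝ) ^ (α + ε))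
    (hlow : ∃ c : ℝ, 0 < c ∧ ∃ N : ℕ, ∀ n : ℕ, N ≤ n →
      c * (n : ℝ) ^ β ≤ (SimpleGraph.extremalNumber n P : ℝ))
    (ε : ℝ) (hε : 0 < ε) :
    ∃ N : ℕ, ∀ n : ℕ, N ≤ n → ratio P n ≤ (n : ℝ) ^ (α - β + ε) := by
  obtain ⟨N1, h1⟩ := hup (ε / 2) (by positivity)
  obtain ⟨c, hc, N2, h2⟩ := hlow
  obtain ⟨N3, h3⟩ : ∃ N3 : ℕ, ∀ n : ℕ, N3 ≤ n → 1 / c ≤ (n : ℝ) ^ (ε / 2) := by
    have ht : Filter.Tendsto (fun n : ℕ => (n : ℝ) ^ (ε / 2)) Filter.atTop Filter.atTop :=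
      (tendsto_rpow_atTop (by positivity)).comp tendsto_natCast_atTop_atTop
    exact Filter.eventually_atTop.1 (ht.eventually_ge_atTop (1 / c))
  refine ⟨max (max N1 N2) (max N3 1), fun n hn => ?_⟩
  have hn1 : N1 ≤ n := (le_max_left _ _).trans ((le_max_left _ _).trans hn)
  have hn2 : N2 ≤ n := (le_max_right _ _).trans ((le_max_left _ _).trans hn)
  have hn3 : N3 ≤ n := (le_max_left _ _).trans ((le_max_right _ _).trans hn)
  have hn4 : 1 ≤ n := (le_max_right _ _).trans ((le_max_right _ _).trans hn)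
  have hn0 : (0 : ℝ) < n := by exact_mod_cast hn4
  have hu := h1 n hn1
  have hl := h2 n hn2
  have hlpos : 0 < c * (n : ℝ) ^ β := by positivity
  have hexpos : 0 < (SimpleGraph.extremalNumber n P : ℝ) := lt_of_lt_of_le hlpos hl
  unfold ratio
  rw [div_le_iff₀ hexpos]
  refine hu.trans ?_
  have h5 : (n : ℝ) ^ (α + ε / 2) ≤ (n : ℝ) ^ (α - β + ε) * (c * (n : ℝ) ^ β) := by
    have h7 : (n : ℝ) ^ (α + ε / 2) = (n : ℝ) ^ (α - β + ε) * ((n : ℝ) ^ β /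
        (n : ℝ) ^ (ε / 2)) := by
      rw [← Real.rpow_sub hn0, ← Real.rpow_add hn0]
      congr 1
      ring
    rw [h7]
    refine mul_le_mul_of_nonneg_left ?_ (by positivity)
    have h8 := h3 n hn3
    have h9 : 0 < (n : ℝ) ^ (ε / 2) := by positivity
    rw [div_le_iff₀ h9]
    have h10 : 1 ≤ c * (n : ℝ) ^ (ε / 2) := by
      rw [div_le_iff₀ hc] at h8
      linarith
    calc (n : ℝ) ^ β = (n : ℝ) ^ β * 1 := by ring
      _ ≤ (n : ℝ) ^ β * (c * (n : ℝ) ^ (ε / 2)) := mul_le_mul_of_nonneg_left h10 (by positivity)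
      _ = c * (n : ℝ) ^ β * (n : ℝ) ^ (ε / 2) := by ring
  refine h5.trans ?_
  exact mul_le_mul_of_nonneg_left hl (by positivity)

theorem lower_mono {j k : ℕ} (C : SimpleGraph (Fin j)) (P : SimpleGraph (Fin k))
    (hC : C.IsContained P) (β : ℝ)
    (h : ∃ c : ℝ, 0 < c ∧ ∃ N : ℕ, ∀ n : ℕ, N ≤ n →
      c * (n : ℝ) ^ β ≤ (SimpleGraph.extremalNumber n C : ℝ)) :
    ∃ c : ℝ, 0 < c ∧ ∃ N : ℕ, ∀ n : ℕ, N ≤ n →
      c * (n : ℝ) ^ β ≤ (SimpleGraph.extremalNumber n P : ℝ) := by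
  obtain ⟨c, hc, N, h⟩ := h
  refine ⟨c, hc, N, fun n hn => (h n hn).trans ?_⟩
  exact_mod_cast hC.extremalNumber_le

/-- the upper bound for the ordered number in terms of the number of edges to delete -/
theorem upper {k : ℕ} (P : SimpleGraph (Fin k)) (hO : OrdBip P) (r : ℕ)
    (h : ∃ R : Finset (Sym2 (Fin k)), R.card ≤ r ∧
      (P.deleteEdges (R : Set (Sym2 (Fin k)))).IsAcyclic) (ε : ℝ) (hε : 0 < ε) :
    ∃ N : ℕ, ∀ n : ℕ, N ≤ n →
      (exOrd P n : ℝ) ≤ (n : ℝ) ^ (2 - 1 / ((2 * ((r + 1) / 2) + 1 : ℕ) : ℝ) + ε) := by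
  classical
  obtain ⟨R, hRr, hac⟩ := h
  have hfew : FewHubs ((r + 1) / 2) P := by
    have h1 := fewHubs_of_edges P hO (R.filter (fun e => e ∈ P.edgeSet))
      (fun e he => (mem_filter.1 he).2) (by
        refine hac.anti ?_
        intro a b hab
        rw [SimpleGraph.deleteEdges_adj] at hab ⊢
        refine ⟨hab.1, fun h => hab.2 ?_⟩
        rw [mem_coe, mem_filter]
        exact ⟨by simpa using h, hab.1⟩)
    obtain ⟨m, A, h2, h3, h4, h5⟩ := h1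
    have h6 : (R.filter (fun e => e ∈ P.edgeSet)).card ≤ r := (card_filter_le _ _).trans hRr
    exact ⟨m, A, h2, h3.trans (by omega), h4.trans (by omega), h5⟩
  obtain ⟨N, hN⟩ := tracked_upper (2 * ((r + 1) / 2) + 1) (by omega) P
    (fewHubs_tracked _ P hfew) ε hε
  exact ⟨N, fun n hn => exOrd_le P n _ (by positivity) (hN n hn)⟩

/-- the numerical inequality behind the bound in terms of the number of vertices -/
theorem numeric_sqrt (k r : ℕ) (hk : 3 ≤ k) (hr : 1 ≤ r) :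
    1 / Real.sqrt k < 1 / ((r : ℝ) + 2) + (r : ℝ) / ((k : ℝ) - 2 + r) := by
  obtain ⟨s, hs⟩ : ∃ s : ℝ, s = Real.sqrt k := ⟨_, rfl⟩
  have hkR : (3 : ℝ) ≤ k := by exact_mod_cast hk
  have hrR : (1 : ℝ) ≤ r := by exact_mod_cast hr
  have hss : s * s = k := by rw [hs]; exact Real.mul_self_sqrt (by linarith)
  have hs1 : (17 : ℝ) / 10 < s := by
    rw [hs]
    exact Real.lt_sqrt_of_sq_lt (by linarith)
  rw [← hs]
  have hs0 : 0 < s := by linarith
  have h1 : (0 : ℝ) < (r : ℝ) + 2 := by linarith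
  have h2 : (0 : ℝ) < (k : ℝ) - 2 + r := by linarith
  rw [div_add_div _ _ h1.ne' h2.ne', div_lt_div_iff₀ hs0 (by positivity)]
  rw [← hss]
  rcases Nat.lt_or_ge k 4 with h4 | h4
  · have hk3 : k = 3 := by omega
    rw [hk3] at hss
    norm_num at hss
    have h5 : s * s = 3 := hss
    rw [h5]
    have h6 : (0 : ℝ) < 1 * (3 - 2 + (r : ℝ)) + ((r : ℝ) + 2) * r := by nlinarith
    have h7 : (1 * (3 - 2 + (r : ℝ)) + ((r : ℝ) + 2) * r) * (17 / 10) ≤
        (1 * (3 - 2 + (r : ℝ)) + ((r : ℝ) + 2) * r) * s :=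
      mul_le_mul_of_nonneg_left hs1.le h6.le
    nlinarith
  · have hs2 : 2 ≤ s := by
      rw [hs]
      have : (4 : ℝ) ≤ k := by exact_mod_cast h4
      exact Real.le_sqrt_of_sq_le (by linarith)
    obtain ⟨x, hx⟩ : ∃ x : ℝ, x = s - 2 := ⟨_, rfl⟩
    obtain ⟨y, hy⟩ : ∃ y : ℝ, y = (r : ℝ) - 1 := ⟨_, rfl⟩
    have hx0 : 0 ≤ x := by rw [hx]; linarith
    have hy0 : 0 ≤ y := by rw [hy]; linarith
    have hsx : s = x + 2 := by rw [hx]; ring
    have hry : (r : ℝ) = y + 1 := by rw [hy]; ring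
    rw [hsx, hry]
    have h5 : 0 ≤ x * (x - y) ^ 2 := by positivity
    have h6 : 0 ≤ x * x * y := by positivity
    have h7 : 0 ≤ x * y := by positivity
    have h8 : 0 ≤ x * x := by positivity
    have h9 : 0 ≤ y * y := by positivity
    nlinarith

/-- a general upper bound for the ratio -/
theorem result {k : ℕ} (P : SimpleGraph (Fin k)) (hO : OrdBip P) (hP : 2 ≤ P.edgeSet.ncard) :
    (∀ r : ℕ, (∃ R : Finset (Sym2 (Fin k)), R.card ≤ r ∧
        (P.deleteEdges (R : Set (Sym2 (Fin k)))).IsAcyclic) →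
      ∀ ε : ℝ, 0 < ε → ∃ N : ℕ, ∀ n : ℕ, N ≤ n →
        (exOrd P n : ℝ) ≤ (n : ℝ) ^ (2 - 1 / ((2 * ((r + 1) / 2) + 1 : ℕ) : ℝ) + ε)) ∧
    (∀ r : ℕ, 1 ≤ r → (∃ R : Finset (Sym2 (Fin k)), R.card ≤ r ∧
        (P.deleteEdges (R : Set (Sym2 (Fin k)))).IsAcyclic) →
      (∀ R : Finset (Sym2 (Fin k)), (P.deleteEdges (R : Set (Sym2 (Fin k)))).IsAcyclic →
        r ≤ R.card) →
      ∀ ε : ℝ, 0 < ε → ∃ N : ℕ, ∀ n : ℕ, N ≤ n → ratio P n ≤
        (n : ℝ) ^ (1 - (r : ℝ) / ((k : ℝ) - 2 + r) - 1 / ((2 * ((r + 1) / 2) + 1 : ℕ) : ℝ) + ε)) ∧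
    (∃ N : ℕ, ∀ n : ℕ, N ≤ n → ratio P n ≤ (n : ℝ) ^ (1 - 1 / Real.sqrt k)) := by
  classical
  -- there are at least three vertices
  have hk : 3 ≤ k := by
    by_contra hc
    have h1 : P.edgeSet.ncard ≤ 1 := by
      rw [← eIn_univ]
      rcases Nat.lt_or_ge k 2 with h | h
      · rw [eIn_one P univ (by rw [card_univ, Fintype.card_fin]; omega)]
        exact Nat.zero_le _
      · exact eIn_two P univ (by rw [card_univ, Fintype.card_fin]; omega)
    omega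
  have hkR : (3 : ℝ) ≤ k := by exact_mod_cast hk
  have hA := fun r h => upper P hO r h
  have hB : ∀ r : ℕ, 1 ≤ r → (∃ R : Finset (Sym2 (Fin k)), R.card ≤ r ∧
        (P.deleteEdges (R : Set (Sym2 (Fin k)))).IsAcyclic) →
      (∀ R : Finset (Sym2 (Fin k)), (P.deleteEdges (R : Set (Sym2 (Fin k)))).IsAcyclic →
        r ≤ R.card) →
      ∀ ε : ℝ, 0 < ε → ∃ N : ℕ, ∀ n : ℕ, N ≤ n → ratio P n ≤
        (n : ℝ) ^ (1 - (r : ℝ) / ((k : ℝ) - 2 + r) -
          1 / ((2 * ((r + 1) / 2) + 1 : ℕ) : ℝ) + ε) := by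
    intro r hr hR hmin ε hε
    have hrR : (1 : ℝ) ≤ r := by exact_mod_cast hr
    obtain ⟨v, F, hF, hv, he, hd⟩ := dense_part P hk r hr hmin
    have h1 := ratio_of P (2 - 1 / ((2 * ((r + 1) / 2) + 1 : ℕ) : ℝ))
      (2 - ((v : ℝ) - 2) / ((F.edgeSet.ncard : ℝ) - 1)) (hA r hR)
      (lower_mono F P hF _ (ex_lower_density F _ rfl he hv)) ε hε
    obtain ⟨N, hN⟩ := h1
    refine ⟨max N 1, fun n hn => (hN n ((le_max_left _ _).trans hn)).trans ?_⟩
    have hn1 : (1 : ℝ) ≤ n := by exact_mod_cast (le_max_right _ _).trans hn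
    refine Real.rpow_le_rpow_of_exponent_le hn1 ?_
    have h2 : ((k : ℝ) - 2) / ((k : ℝ) - 2 + r) = 1 - (r : ℝ) / ((k : ℝ) - 2 + r) := by
      have : (k : ℝ) - 2 + r ≠ 0 := by
        have : (0 : ℝ) < (k : ℝ) - 2 + r := by linarith
        exact this.ne'
      field_simp
      ring
    linarith
  refine ⟨hA, hB, ?_⟩
  -- the least number of edges
  have hex : ∃ r : ℕ, ∃ R : Finset (Sym2 (Fin k)), R.card ≤ r ∧
      (P.deleteEdges (R : Set (Sym2 (Fin k)))).IsAcyclic := by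
    refine ⟨P.edgeFinset.card, P.edgeFinset, le_rfl, ?_⟩
    have : P.deleteEdges (P.edgeFinset : Set (Sym2 (Fin k))) = ⊥ := by
      ext a b
      rw [SimpleGraph.deleteEdges_adj]
      simp
    rw [this]
    exact SimpleGraph.isAcyclic_bot
  obtain ⟨r, hr⟩ : ∃ r, r = Nat.find hex := ⟨_, rfl⟩
  have hRr : ∃ R : Finset (Sym2 (Fin k)), R.card ≤ r ∧
      (P.deleteEdges (R : Set (Sym2 (Fin k)))).IsAcyclic := by
    rw [hr]
    exact Nat.find_spec hex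
  have hmin : ∀ R : Finset (Sym2 (Fin k)), (P.deleteEdges (R : Set (Sym2 (Fin k)))).IsAcyclic →
      r ≤ R.card := by
    intro R hR
    rw [hr]
    exact Nat.find_min' hex ⟨R, le_rfl, hR⟩
  have hs1 : 1 < Real.sqrt k := by
    rw [Real.lt_sqrt (by norm_num)]
    linarith
  rcases Nat.eq_zero_or_pos r with h0 | h0
  · -- a forest
    rw [h0] at hRr
    have hδ : 0 < 1 - 1 / Real.sqrt k := by
      rw [sub_pos, div_lt_one (by linarith)]
      exact hs1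
    have hup : ∀ ε : ℝ, 0 < ε → ∃ N : ℕ, ∀ n : ℕ, N ≤ n →
        (exOrd P n : ℝ) ≤ (n : ℝ) ^ ((1 : ℝ) + ε) := by
      intro ε hε
      obtain ⟨N, hN⟩ := hA 0 hRr ε hε
      refine ⟨N, fun n hn => ?_⟩
      have := hN n hn
      norm_num at this ⊢
      exact this
    have hlow : ∃ c : ℝ, 0 < c ∧ ∃ N : ℕ, ∀ n : ℕ, N ≤ n →
        c * (n : ℝ) ^ (1 : ℝ) ≤ (SimpleGraph.extremalNumber n P : ℝ) := by
      refine ⟨1 / 4, by norm_num, 2, fun n hn => ?_⟩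
      have hl := linear_lower P hP n
      have h3 : n ≤ 4 * (n / 2) := by omega
      have h4 : n ≤ 4 * SimpleGraph.extremalNumber n P := h3.trans (by omega)
      have h5 : (n : ℝ) ≤ 4 * (SimpleGraph.extremalNumber n P : ℝ) := by exact_mod_cast h4
      rw [Real.rpow_one]
      linarith
    obtain ⟨N, hN⟩ := ratio_of P 1 1 hup hlow (1 - 1 / Real.sqrt k) hδ
    refine ⟨N, fun n hn => ?_⟩
    have := hN n hn
    rw [sub_self, zero_add] at this
    exact this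
  · have hnum := numeric_sqrt k r hk h0
    obtain ⟨δ, hδ⟩ : ∃ δ : ℝ, δ = 1 / ((r : ℝ) + 2) + (r : ℝ) / ((k : ℝ) - 2 + r) -
      1 / Real.sqrt k := ⟨_, rfl⟩
    have hδ0 : 0 < δ := by rw [hδ]; linarith
    obtain ⟨N, hN⟩ := hB r h0 hRr hmin δ hδ0
    refine ⟨max N 1, fun n hn => (hN n ((le_max_left _ _).trans hn)).trans ?_⟩
    have hn1 : (1 : ℝ) ≤ n := by exact_mod_cast (le_max_right _ _).trans hn
    refine Real.rpow_le_rpow_of_exponent_le hn1 ?_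
    have h5 : 1 / ((r : ℝ) + 2) ≤ 1 / ((2 * ((r + 1) / 2) + 1 : ℕ) : ℝ) := by
      refine one_div_le_one_div_of_le (by positivity) ?_
      have h6 : 2 * ((r + 1) / 2) + 1 ≤ r + 2 := by omega
      exact_mod_cast h6
    rw [hδ]
    linarith

end Pool.Agent.Results.MP_ac0d5f_co.GeneralBound
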