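import Mathlib
import Pool.Agent.H152.TT.Defs
import Pool.Agent.H152.TT.Defs2
import Pool.Agent.H152.TT.Classes
import Pool.Agent.H152.TT.Cyclo2
import Pool.Agent.H152.TT.Linear
import Pool.Agent.H152.TT.Deletion
import Pool.Agent.H152.TT.Feedback

set_option autoImplicit false

open Finset

namespace Pool.Agent.Results.MP_ac0d5f_co.GeneralRatio

open H152TT

/-- an upper bound for the ordered number and a lower bound for the unordered one -/
theorem ratio_of {k : ℕ} (P : SimpleGraph (Fin k)) (α β : ℝ)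
    (hup : ∀ ε : ℝ, 0 < ε → ∃ N : ℕ, ∀ n : ℕ, N ≤ n → (exOrd P n : ℝ) ≤ (n : ℝ) ^ (α + ε))
    (hlow : ∃ c : ℝ, 0 < c ∧ ∃ N : ℕ, ∀ n : ℕ, N ≤ n →
      c * (n : ℝ) ^ β ≤ (SimpleGraph.extremalNumber n P : ℝ))
    (ε : ℝ) (hε : 0 < ε) :
    ∃ N : ℕ, ∀ n : ℕ, N ≤ n → ratio P n ≤ (n : ℝ) ^ (α - β + ε) := by
  obtain ⟨N1, h1⟩ := hup (ε / 2) (by positivity)
  obtain ⟨c, hc, N2, h2⟩ := hlow
  obtain ⟨N3, h3⟩ : ∃ N3 : ℕ, ∀ n : ℕ, N3 ≤ n → 1 / c ≤ (n : ℝ) ^ (ε / 2) := by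
    have ht : Filter.Tendsto (fun n : ℕ => (n : ℝ) ^ (ε / 2)) Filter.atTop Filter.atTop :=
      (tendsto_rpow_atTop (by positivity)).comp tendsto_natCast_atTop_atTop
    exact Filter.eventually_atTop.1 (ht.eventually_ge_atTop (1 / c))
  refine ⟨max (max N1 N2) (max N3 1), fun n hn => ?_⟩
  have hn1 : N1 ≤ n := (le_max_left _ _).trans ((le_max_left _ _).trans hn)
  have hn2 : N2 ≤ n := (le_max_right _ _).trans ((le_max_left _ _).trans hn)
  have hn3 : N3 ≤ n := (le_max_left _ _).trans ((le_max_right _ _).trans hn)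
  have hn4 : 1 ≤ n := (le_max_right _ _).trans ((le_max_right _ _).trans hn)
  have hn0 : (0 : ℝ) < n := by exact_mod_cast hn4
  have hu := h1 n hn1
  have hl := h2 n hn2
  have hlpos : 0 < c * (n : ℝ) ^ β := by positivity
  have hexpos : 0 < (SimpleGraph.extremalNumber n P : ℝ) := lt_of_lt_of_le hlpos hl
  unfold ratio
  rw [div_le_iff₀ hexpos]
  refine hu.trans ?_
  have h5 : (n : ℝ) ^ (α + ε / 2) ≤ (n : ℝ) ^ (α - β + ε) * (c * (n : ℝ) ^ β) := by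
    have h7 : (n : ℝ) ^ (α + ε / 2) = (n : ℝ) ^ (α - β + ε) * ((n : ℝ) ^ β /
        (n : ℝ) ^ (ε / 2)) := by
      rw [← Real.rpow_sub hn0, ← Real.rpow_add hn0]
      congr 1
      ring
    rw [h7]
    refine mul_le_mul_of_nonneg_left ?_ (by positivity)
    have h8 := h3 n hn3
    have h9 : 0 < (n : ℝ) ^ (ε / 2) := by positivity
    rw [div_le_iff₀ h9]
    have h10 : 1 ≤ c * (n : ℝ) ^ (ε / 2) := by
      rw [div_le_iff₀ hc] at h8
      linarith
    calc (n : ℝ) ^ β = (n : ℝ) ^ β * 1 := by ring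
      _ ≤ (n : ℝ) ^ β * (c * (n : ℝ) ^ (ε / 2)) := mul_le_mul_of_nonneg_left h10 (by positivity)
      _ = c * (n : ℝ) ^ β * (n : ℝ) ^ (ε / 2) := by ring
  refine h5.trans ?_
  exact mul_le_mul_of_nonneg_left hl (by positivity)

theorem lower_mono {j k : ℕ} (C : SimpleGraph (Fin j)) (P : SimpleGraph (Fin k))
    (hC : C.IsContained P) (β : ℝ)
    (h : ∃ c : ℝ, 0 < c ∧ ∃ N : ℕ, ∀ n : ℕ, N ≤ n →
      c * (n : ℝ) ^ β ≤ (SimpleGraph.extremalNumber n C : ℝ)) :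
    ∃ c : ℝ, 0 < c ∧ ∃ N : ℕ, ∀ n : ℕ, N ≤ n →
      c * (n : ℝ) ^ β ≤ (SimpleGraph.extremalNumber n P : ℝ) := by
  obtain ⟨c, hc, N, h⟩ := h
  refine ⟨c, hc, N, fun n hn => (h n hn).trans ?_⟩
  exact_mod_cast hC.extremalNumber_le

/-- the upper bound for the ordered number in terms of the number of edges to delete -/
theorem upper {k : ℕ} (P : SimpleGraph (Fin k)) (r : ℕ) (h : FewCycles r P) (ε : ℝ)
    (hε : 0 < ε) :
    ∃ N : ℕ, ∀ n : ℕ, N ≤ n →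
      (exOrd P n : ℝ) ≤ (n : ℝ) ^ (2 - 1 / (((r + 1) / 2 + 1 : ℕ) : ℝ) + ε) := by
  obtain ⟨N, hN⟩ := tracked_upper ((r + 1) / 2 + 1) (by omega) P
    (tracked_of_edges P h.1 r h.2) ε hε
  exact ⟨N, fun n hn => exOrd_le P n _ (by positivity) (hN n hn)⟩

/-- the quadratic inequality behind the bound in terms of the number of vertices -/
theorem quad_pos (s u : ℝ) (k : ℕ) (hk : 3 ≤ k) (hs : 0 < s) (hss : s * s = k) (hu : 2 ≤ u) :
    0 < (s + 2) * (s ^ 2 + 2 * u ^ 2 - u - 5) - 14 / 5 * u * (s ^ 2 + 2 * u - 5) := by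
  have hs2 : s ^ 2 = k := by rw [sq]; exact hss
  have hs17 : (17 : ℝ) / 10 < s := by
    have : (3 : ℝ) ≤ k := by exact_mod_cast hk
    nlinarith
  obtain ⟨y, hy⟩ : ∃ y : ℝ, y = u - 2 := ⟨_, rfl⟩
  have hy0 : 0 ≤ y := by rw [hy]; linarith
  have huy : u = y + 2 := by rw [hy]; ring
  have hA : 0 < 2 * s - 8 / 5 := by linarith
  rcases Nat.lt_or_ge k 6 with h6 | h6
  · -- few vertices
    have hk5 : (k : ℝ) ≤ 5 := by
      have : k ≤ 5 := by omega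
      exact_mod_cast this
    have hs5 : s ≤ 2237 / 1000 := by nlinarith
    have e1 : (s + 2) * (s ^ 2 + 2 * u ^ 2 - u - 5) - 14 / 5 * u * (s ^ 2 + 2 * u - 5) =
        (2 * s - 8 / 5) * y ^ 2 + (4 * (2 * s - 8 / 5) + (12 - s - 14 / 5 * s ^ 2)) * y +
          ((s + 2) * (s ^ 2 + 1) - 28 / 5 * (s ^ 2 - 1)) := by
      rw [huy]
      ring
    rw [e1]
    have e2 : 0 < 4 * (2 * s - 8 / 5) + (12 - s - 14 / 5 * s ^ 2) := by nlinarith
    have e3 : 0 < (s + 2) * (s ^ 2 + 1) - 28 / 5 * (s ^ 2 - 1) := by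
      have e4 : (s + 2) * (s ^ 2 + 1) - 28 / 5 * (s ^ 2 - 1) =
        s ^ 3 - 18 / 5 * s ^ 2 + s + 38 / 5 := by ring
      rw [e4]
      have e5 : 0 ≤ (s - 2) ^ 2 * (s + 2 / 5) := by positivity
      nlinarith
    have e6 : 0 ≤ (2 * s - 8 / 5) * y ^ 2 := by positivity
    have e7 : 0 ≤ (4 * (2 * s - 8 / 5) + (12 - s - 14 / 5 * s ^ 2)) * y :=
      mul_nonneg e2.le hy0
    linarith
  · -- a negative discriminant
    have hk6 : (6 : ℝ) ≤ k := by exact_mod_cast h6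
    have hs6 : (244 : ℝ) / 100 ≤ s := by
      by_contra hc
      have hc' : s < 244 / 100 := not_le.1 hc
      nlinarith
    obtain ⟨z, hz⟩ : ∃ z : ℝ, z = s - 244 / 100 := ⟨_, rfl⟩
    have hz0 : 0 ≤ z := by rw [hz]; linarith
    have hsz : s = z + 244 / 100 := by rw [hz]; ring
    have hdisc : 0 < 4 / 25 * s ^ 4 + 4 * s ^ 3 + 67 / 5 * s ^ 2 - 24 * s - 80 := by
      rw [hsz]
      have z2 : 0 ≤ z ^ 2 := by positivity
      have z3 : 0 ≤ z ^ 3 := by positivity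
      have z4 : 0 ≤ z ^ 4 := by positivity
      nlinarith
    have e1 : 4 * (2 * s - 8 / 5) *
        ((s + 2) * (s ^ 2 + 2 * u ^ 2 - u - 5) - 14 / 5 * u * (s ^ 2 + 2 * u - 5)) =
        (2 * (2 * s - 8 / 5) * u + (12 - s - 14 / 5 * s ^ 2)) ^ 2 +
          (4 / 25 * s ^ 4 + 4 * s ^ 3 + 67 / 5 * s ^ 2 - 24 * s - 80) := by
      ring
    have e2 : 0 < 4 * (2 * s - 8 / 5) *
        ((s + 2) * (s ^ 2 + 2 * u ^ 2 - u - 5) - 14 / 5 * u * (s ^ 2 + 2 * u - 5)) := by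
      rw [e1]
      positivity
    have e3 : 0 < 4 * (2 * s - 8 / 5) := by linarith
    exact (mul_pos_iff_of_pos_left e3).1 e2

/-- the numerical inequality behind the bound in terms of the number of vertices -/
theorem numeric_general (k r : ℕ) (hk : 3 ≤ k) (hr : 1 ≤ r) :
    14 / (5 * (Real.sqrt k + 2)) <
      1 / (((r + 1) / 2 + 1 : ℕ) : ℝ) + (r : ℝ) / ((k : ℝ) - 2 + r) := by
  obtain ⟨s, hs⟩ : ∃ s : ℝ, s = Real.sqrt k := ⟨_, rfl⟩
  have hkR : (3 : ℝ) ≤ k := by exact_mod_cast hk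
  have hrR : (1 : ℝ) ≤ r := by exact_mod_cast hr
  have hss : s * s = k := by rw [hs]; exact Real.mul_self_sqrt (by linarith)
  have hs0 : 0 < s := by rw [hs]; exact Real.sqrt_pos.2 (by linarith)
  rw [← hs]
  obtain ⟨u, hu⟩ : ∃ u : ℕ, u = (r + 1) / 2 + 1 := ⟨_, rfl⟩
  rw [← hu]
  have hu2 : 2 ≤ u := by omega
  have hur : 2 * u ≤ r + 3 := by omega
  have hu2R : (2 : ℝ) ≤ u := by exact_mod_cast hu2
  have hurR : 2 * (u : ℝ) ≤ r + 3 := by exact_mod_cast hur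
  have h1 : (2 * (u : ℝ) - 3) / ((k : ℝ) + 2 * u - 5) ≤ (r : ℝ) / ((k : ℝ) - 2 + r) := by
    rw [div_le_div_iff₀ (by linarith) (by linarith)]
    nlinarith
  refine lt_of_lt_of_le ?_ (add_le_add_right h1 _)
  have h2 := quad_pos s u k hk hs0 hss hu2R
  have h3 : (0 : ℝ) < (k : ℝ) + 2 * u - 5 := by linarith
  have h4 : (0 : ℝ) < u := by linarith
  rw [div_add_div _ _ h4.ne' h3.ne', div_lt_div_iff₀ (by positivity) (by positivity)]
  rw [← hss]
  nlinarith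

/-- a general upper bound for the ratio -/
theorem result {k : ℕ} (P : SimpleGraph (Fin k)) (hO : OrdBip P) (hP : 2 ≤ P.edgeSet.ncard) :
    (∀ r : ℕ, 1 ≤ r → FewCycles r P → ¬ FewCycles (r - 1) P →
      ∀ ε : ℝ, 0 < ε → ∃ N : ℕ, ∀ n : ℕ, N ≤ n → ratio P n ≤
        (n : ℝ) ^ (1 - (r : ℝ) / ((k : ℝ) - 2 + r) - 1 / (((r + 1) / 2 + 1 : ℕ) : ℝ) + ε)) ∧
    (∃ N : ℕ, ∀ n : ℕ, N ≤ n → ratio P n ≤ (n : ℝ) ^ (1 - 14 / (5 * (Real.sqrt k + 2)))) := by
  classical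
  -- there are at least three vertices
  have hk : 3 ≤ k := by
    by_contra hc
    have h1 : P.edgeSet.ncard ≤ 1 := by
      rw [← eIn_univ]
      rcases Nat.lt_or_ge k 2 with h | h
      · rw [eIn_one P univ (by rw [card_univ, Fintype.card_fin]; omega)]
        exact Nat.zero_le _
      · exact eIn_two P univ (by rw [card_univ, Fintype.card_fin]; omega)
    omega
  have hkR : (3 : ℝ) ≤ k := by exact_mod_cast hk
  have hB : ∀ r : ℕ, 1 ≤ r → FewCycles r P → ¬ FewCycles (r - 1) P →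
      ∀ ε : ℝ, 0 < ε → ∃ N : ℕ, ∀ n : ℕ, N ≤ n → ratio P n ≤
        (n : ℝ) ^ (1 - (r : ℝ) / ((k : ℝ) - 2 + r) - 1 / (((r + 1) / 2 + 1 : ℕ) : ℝ) + ε) := by
    intro r hr hR hnot ε hε
    have hrR : (1 : ℝ) ≤ r := by exact_mod_cast hr
    have hmin : ∀ R : Finset (Sym2 (Fin k)),
        (P.deleteEdges (R : Set (Sym2 (Fin k)))).IsAcyclic → r ≤ R.card := by
      intro R hRa
      by_contra hc
      exact hnot ⟨hO, R, by omega, hRa⟩
    obtain ⟨v, F, hF, hv, he, hd⟩ := dense_part P hk r hr hmin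
    have h1 := ratio_of P (2 - 1 / (((r + 1) / 2 + 1 : ℕ) : ℝ))
      (2 - ((v : ℝ) - 2) / ((F.edgeSet.ncard : ℝ) - 1)) (upper P r hR)
      (lower_mono F P hF _ (ex_lower_density F _ rfl he hv)) ε hε
    obtain ⟨N, hN⟩ := h1
    refine ⟨max N 1, fun n hn => (hN n ((le_max_left _ _).trans hn)).trans ?_⟩
    have hn1 : (1 : ℝ) ≤ n := by exact_mod_cast (le_max_right _ _).trans hn
    refine Real.rpow_le_rpow_of_exponent_le hn1 ?_
    have h2 : ((k : ℝ) - 2) / ((k : ℝ) - 2 + r) = 1 - (r : ℝ) / ((k : ℝ) - 2 + r) := by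
      have : (k : ℝ) - 2 + r ≠ 0 := by
        have : (0 : ℝ) < (k : ℝ) - 2 + r := by linarith
        exact this.ne'
      field_simp
      ring
    linarith
  refine ⟨hB, ?_⟩
  -- the least number of edges
  have hex : ∃ r : ℕ, FewCycles r P := by
    refine ⟨P.edgeFinset.card, hO, P.edgeFinset, le_rfl, ?_⟩
    have : P.deleteEdges (P.edgeFinset : Set (Sym2 (Fin k))) = ⊥ := by
      ext a b
      rw [SimpleGraph.deleteEdges_adj]
      simp
    rw [this]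
    exact SimpleGraph.isAcyclic_bot
  obtain ⟨r, hr⟩ : ∃ r, r = Nat.find hex := ⟨_, rfl⟩
  have hRr : FewCycles r P := by
    rw [hr]
    exact Nat.find_spec hex
  have hs3 : (17 : ℝ) / 10 < Real.sqrt k := by
    exact Real.lt_sqrt_of_sq_lt (by linarith)
  rcases Nat.eq_zero_or_pos r with h0 | h0
  · -- a forest
    rw [h0] at hRr
    have hδ : 0 < 1 - 14 / (5 * (Real.sqrt k + 2)) := by
      rw [sub_pos, div_lt_one (by linarith)]
      linarith
    have hup : ∀ ε : ℝ, 0 < ε → ∃ N : ℕ, ∀ n : ℕ, N ≤ n →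
        (exOrd P n : ℝ) ≤ (n : ℝ) ^ ((1 : ℝ) + ε) := by
      intro ε hε
      obtain ⟨N, hN⟩ := upper P 0 hRr ε hε
      refine ⟨N, fun n hn => ?_⟩
      have := hN n hn
      norm_num at this ⊢
      exact this
    have hlow : ∃ c : ℝ, 0 < c ∧ ∃ N : ℕ, ∀ n : ℕ, N ≤ n →
        c * (n : ℝ) ^ (1 : ℝ) ≤ (SimpleGraph.extremalNumber n P : ℝ) := by
      refine ⟨1 / 4, by norm_num, 2, fun n hn => ?_⟩
      have hl := linear_lower P hP n
      have h3 : n ≤ 4 * (n / 2) := by omega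
      have h4 : n ≤ 4 * SimpleGraph.extremalNumber n P := h3.trans (by omega)
      have h5 : (n : ℝ) ≤ 4 * (SimpleGraph.extremalNumber n P : ℝ) := by exact_mod_cast h4
      rw [Real.rpow_one]
      linarith
    obtain ⟨N, hN⟩ := ratio_of P 1 1 hup hlow (1 - 14 / (5 * (Real.sqrt k + 2))) hδ
    refine ⟨N, fun n hn => ?_⟩
    have := hN n hn
    rw [sub_self, zero_add] at this
    exact this
  · have hnot : ¬ FewCycles (r - 1) P := by
      have hlt : r - 1 < Nat.find hex := by omega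
      exact Nat.find_min hex hlt
    have hnum := numeric_general k r hk h0
    obtain ⟨δ, hδ⟩ : ∃ δ : ℝ, δ = 1 / (((r + 1) / 2 + 1 : ℕ) : ℝ) +
      (r : ℝ) / ((k : ℝ) - 2 + r) - 14 / (5 * (Real.sqrt k + 2)) := ⟨_, rfl⟩
    have hδ0 : 0 < δ := by rw [hδ]; linarith
    obtain ⟨N, hN⟩ := hB r h0 hRr hnot δ hδ0
    refine ⟨N, fun n hn => ?_⟩
    have h1 := hN n hn
    have h2 : 1 - (r : ℝ) / ((k : ℝ) - 2 + r) - 1 / (((r + 1) / 2 + 1 : ℕ) : ℝ) + δ =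
        1 - 14 / (5 * (Real.sqrt k + 2)) := by
      rw [hδ]; ring
    rw [h2] at h1
    exact h1

end Pool.Agent.Results.MP_ac0d5f_co.GeneralRatio
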