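import Mathlib
import Pool.Agent.H152.TT.Defs
import Pool.Agent.H152.TT.Defs2
import Pool.Agent.H152.TT.Classes
import Pool.Agent.H152.TT.Cyclo2
import Pool.Agent.H152.TT.Linear
import Pool.Agent.H152.HR.Defs
import Pool.Agent.H152.HR.Side

set_option autoImplicit false

open Finset

namespace Pool.Agent.Results.MP_ac0d5f_co.HubWidth

open H152TT H152HR

/-- patterns of bounded width, and patterns whose rows have bounded degree apart from few hubs -/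
theorem result {k : ℕ} (s : ℕ) (hs : 1 ≤ s) (P : SimpleGraph (Fin k))
    (hP : 2 ≤ P.edgeSet.ncard)
    (h : HubSide s P ∨ (OrdBip P ∧ P.edgeSet.ncard < (s + 1) ^ 2) ∨ Tracked s P ∨
      (∃ r : ℕ, s = (r + 1) / 2 + 1 ∧ FewCycles r P) ∨
      (∃ a : ℕ, s = 2 * a + 1 ∧ FewHubs a P))
    (ε : ℝ) (hε : 0 < ε) :
    ∃ N : ℕ, ∀ n : ℕ, N ≤ n → (exOrd P n : ℝ) ≤ (n : ℝ) ^ (2 - 1 / (s : ℝ) + ε) ∧
      ratio P n ≤ (n : ℝ) ^ (1 - 1 / (s : ℝ) + ε) := by
  classical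
  have hmain : ∃ N : ℕ, ∀ n : ℕ, N ≤ n → ∀ G : SimpleGraph (Fin n),
      ¬ OContains P G → (G.edgeSet.ncard : ℝ) ≤ (n : ℝ) ^ (2 - 1 / (s : ℝ) + ε / 2) := by
    rcases h with h | h | h | ⟨r, rfl, h⟩ | ⟨a, rfl, h⟩
    · exact side_upper s hs P h (ε / 2) (by positivity)
    · exact side_upper s hs P (side_of_edges P h.1 s h.2) (ε / 2) (by positivity)
    · exact tracked_upper s hs P h (ε / 2) (by positivity)
    · exact tracked_upper _ hs P (tracked_of_edges P h.1 r h.2) (ε / 2) (by positivity)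
    · exact tracked_upper _ hs P (fewHubs_tracked a P h) (ε / 2) (by positivity)
  obtain ⟨N1, h1⟩ := hmain
  obtain ⟨N2, h2⟩ : ∃ N2 : ℕ, ∀ n : ℕ, N2 ≤ n → (4 : ℝ) ≤ (n : ℝ) ^ (ε / 2) := by
    have ht : Filter.Tendsto (fun n : ℕ => (n : ℝ) ^ (ε / 2)) Filter.atTop Filter.atTop :=
      (tendsto_rpow_atTop (by positivity)).comp tendsto_natCast_atTop_atTop
    exact Filter.eventually_atTop.1 (ht.eventually_ge_atTop 4)
  refine ⟨max N1 (max N2 2), fun n hn => ?_⟩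
  have hn1 : N1 ≤ n := (le_max_left _ _).trans hn
  have hn2 : N2 ≤ n := (le_max_left _ _).trans ((le_max_right _ _).trans hn)
  have hn3 : 2 ≤ n := (le_max_right _ _).trans ((le_max_right _ _).trans hn)
  have hn0 : (0 : ℝ) < n := by exact_mod_cast (by omega : 0 < n)
  have hn1R : (1 : ℝ) ≤ n := by exact_mod_cast (by omega : 1 ≤ n)
  have hu2 : (exOrd P n : ℝ) ≤ (n : ℝ) ^ (2 - 1 / (s : ℝ) + ε / 2) :=
    exOrd_le P n _ (by positivity) (h1 n hn1)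
  refine ⟨hu2.trans (Real.rpow_le_rpow_of_exponent_le hn1R (by linarith)), ?_⟩
  have hl := linear_lower P hP n
  have hlR : (n : ℝ) / 4 ≤ (SimpleGraph.extremalNumber n P : ℝ) := by
    have h3 : n ≤ 4 * (n / 2) := by omega
    have h4 : n ≤ 4 * SimpleGraph.extremalNumber n P := h3.trans (by omega)
    have h5 : (n : ℝ) ≤ 4 * (SimpleGraph.extremalNumber n P : ℝ) := by exact_mod_cast h4
    linarith
  have hpos : 0 < (SimpleGraph.extremalNumber n P : ℝ) := lt_of_lt_of_le (by positivity) hlR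
  unfold ratio
  rw [div_le_iff₀ hpos]
  refine hu2.trans ?_
  have h5 : (n : ℝ) ^ (2 - 1 / (s : ℝ) + ε / 2) ≤
      (n : ℝ) ^ (1 - 1 / (s : ℝ) + ε) * ((n : ℝ) / 4) := by
    have h6 : (n : ℝ) ^ (1 - 1 / (s : ℝ) + ε) * (n : ℝ) =
        (n : ℝ) ^ (2 - 1 / (s : ℝ) + ε / 2) * (n : ℝ) ^ (ε / 2) := by
      rw [← Real.rpow_add hn0]
      nth_rewrite 2 [← Real.rpow_one (n : ℝ)]
      rw [← Real.rpow_add hn0]
      congr 1
      ring
    have h7 : (n : ℝ) ^ (1 - 1 / (s : ℝ) + ε) * ((n : ℝ) / 4) =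
        (n : ℝ) ^ (2 - 1 / (s : ℝ) + ε / 2) * ((n : ℝ) ^ (ε / 2) / 4) := by
      rw [← mul_div_assoc, h6, mul_div_assoc]
    rw [h7]
    have h8 : 1 ≤ (n : ℝ) ^ (ε / 2) / 4 := by
      rw [le_div_iff₀ (by norm_num)]
      linarith [h2 n hn2]
    calc (n : ℝ) ^ (2 - 1 / (s : ℝ) + ε / 2) = (n : ℝ) ^ (2 - 1 / (s : ℝ) + ε / 2) * 1 := by ring
      _ ≤ _ := mul_le_mul_of_nonneg_left h8 (by positivity)
  refine h5.trans ?_
  exact mul_le_mul_of_nonneg_left hlR (by positivity)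

end Pool.Agent.Results.MP_ac0d5f_co.HubWidth
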