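import Mathlib
import Pool.Agent.H152.TT.Defs
import Pool.Agent.H152.TT.Defs2
import Pool.Agent.H152.TT.Classes
import Pool.Agent.H152.TT.Cyclo2
import Pool.Agent.H152.TT.Small
import Pool.Agent.H152.TT.Lower
import Pool.Agent.H152.TT.Linear
import Pool.Agent.H152.TT.Deletion

set_option autoImplicit false

open Finset

namespace Pool.Agent.Results.MP_ac0d5f_co.RatioFewCycles

open H152TT

/-- an upper bound for the ordered number and a lower bound for the unordered one -/
theorem ratio_bound {k : ℕ} (P : SimpleGraph (Fin k)) (α β : ℝ) (hβ : α - β ≤ 3 / 10)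
    (hup : ∀ ε : ℝ, 0 < ε → ∃ N : ℕ, ∀ n : ℕ, N ≤ n → ∀ G : SimpleGraph (Fin n),
      ¬ OContains P G → (G.edgeSet.ncard : ℝ) ≤ (n : ℝ) ^ (α + ε))
    (hlow : ∃ c : ℝ, 0 < c ∧ ∃ N : ℕ, ∀ n : ℕ, N ≤ n →
      c * (n : ℝ) ^ β ≤ (SimpleGraph.extremalNumber n P : ℝ))
    (ε : ℝ) (hε : 0 < ε) :
    ∃ N : ℕ, ∀ n : ℕ, N ≤ n → ratio P n ≤ (n : ℝ) ^ ((3 : ℝ) / 10 + ε) := by
  obtain ⟨N1, h1⟩ := hup (ε / 2) (by positivity)
  obtain ⟨c, hc, N2, h2⟩ := hlow
  obtain ⟨N3, h3⟩ : ∃ N3 : ℕ, ∀ n : ℕ, N3 ≤ n → 1 / c ≤ (n : ℝ) ^ (ε / 2) := by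
    have ht : Filter.Tendsto (fun n : ℕ => (n : ℝ) ^ (ε / 2)) Filter.atTop Filter.atTop :=
      (tendsto_rpow_atTop (by positivity)).comp tendsto_natCast_atTop_atTop
    exact Filter.eventually_atTop.1 (ht.eventually_ge_atTop (1 / c))
  refine ⟨max (max N1 N2) (max N3 1), fun n hn => ?_⟩
  have hn1 : N1 ≤ n := (le_max_left _ _).trans ((le_max_left _ _).trans hn)
  have hn2 : N2 ≤ n := (le_max_right _ _).trans ((le_max_left _ _).trans hn)
  have hn3 : N3 ≤ n := (le_max_left _ _).trans ((le_max_right _ _).trans hn)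
  have hn4 : 1 ≤ n := (le_max_right _ _).trans ((le_max_right _ _).trans hn)
  have hn0 : (0 : ℝ) < n := by exact_mod_cast hn4
  have hn1R : (1 : ℝ) ≤ n := by exact_mod_cast hn4
  have hu := exOrd_le P n ((n : ℝ) ^ (α + ε / 2)) (by positivity) (h1 n hn1)
  have hl := h2 n hn2
  have hlpos : 0 < c * (n : ℝ) ^ β := by positivity
  have hexpos : 0 < (SimpleGraph.extremalNumber n P : ℝ) := lt_of_lt_of_le hlpos hl
  unfold ratio
  rw [div_le_iff₀ hexpos]
  refine hu.trans ?_
  have h5 : (n : ℝ) ^ (α + ε / 2) ≤ (n : ℝ) ^ ((3 : ℝ) / 10 + ε) * (c * (n : ℝ) ^ β) := by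
    have h6 : (n : ℝ) ^ (α + ε / 2) ≤ (n : ℝ) ^ (3 / 10 + ε / 2 + β) :=
      Real.rpow_le_rpow_of_exponent_le hn1R (by linarith)
    refine h6.trans ?_
    have h7 : (n : ℝ) ^ (3 / 10 + ε / 2 + β) = (n : ℝ) ^ ((3 : ℝ) / 10 + ε) * ((n : ℝ) ^ β /
        (n : ℝ) ^ (ε / 2)) := by
      rw [← Real.rpow_sub hn0, ← Real.rpow_add hn0]
      congr 1
      ring
    rw [h7]
    refine mul_le_mul_of_nonneg_left ?_ (by positivity)
    have h8 := h3 n hn3
    have h9 : 0 < (n : ℝ) ^ (ε / 2) := by positivity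
    rw [div_le_iff₀ h9]
    have h10 : 1 ≤ c * (n : ℝ) ^ (ε / 2) := by
      rw [div_le_iff₀ hc] at h8
      linarith
    calc (n : ℝ) ^ β = (n : ℝ) ^ β * 1 := by ring
      _ ≤ (n : ℝ) ^ β * (c * (n : ℝ) ^ (ε / 2)) := mul_le_mul_of_nonneg_left h10 (by positivity)
      _ = c * (n : ℝ) ^ β * (n : ℝ) ^ (ε / 2) := by ring
  refine h5.trans ?_
  exact mul_le_mul_of_nonneg_left hl (by positivity)

theorem lower_mono {j k : ℕ} (C : SimpleGraph (Fin j)) (P : SimpleGraph (Fin k))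
    (hC : C.IsContained P) (β : ℝ)
    (h : ∃ c : ℝ, 0 < c ∧ ∃ N : ℕ, ∀ n : ℕ, N ≤ n →
      c * (n : ℝ) ^ β ≤ (SimpleGraph.extremalNumber n C : ℝ)) :
    ∃ c : ℝ, 0 < c ∧ ∃ N : ℕ, ∀ n : ℕ, N ≤ n →
      c * (n : ℝ) ^ β ≤ (SimpleGraph.extremalNumber n P : ℝ) := by
  obtain ⟨c, hc, N, h⟩ := h
  refine ⟨c, hc, N, fun n hn => (h n hn).trans ?_⟩
  exact_mod_cast hC.extremalNumber_le

/-- more tracks are allowed -/
theorem tracked_mono {k : ℕ} (s s' : ℕ) (hs : 1 ≤ s) (hss : s ≤ s') (P : SimpleGraph (Fin k))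
    (h : Tracked s P) (α : ℝ) (hα : 2 - 1 / (s' : ℝ) ≤ α) (ε : ℝ) (hε : 0 < ε) :
    ∃ N : ℕ, ∀ n : ℕ, N ≤ n → ∀ G : SimpleGraph (Fin n), ¬ OContains P G →
      (G.edgeSet.ncard : ℝ) ≤ (n : ℝ) ^ (α + ε) := by
  obtain ⟨N, hN⟩ := tracked_upper s hs P h ε hε
  refine ⟨max N 1, fun n hn G hG => ?_⟩
  have hn1 : (1 : ℝ) ≤ n := by exact_mod_cast (le_max_right _ _).trans hn
  refine (hN n ((le_max_left _ _).trans hn) G hG).trans ?_
  refine Real.rpow_le_rpow_of_exponent_le hn1 ?_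
  have h1 : 1 / (s' : ℝ) ≤ 1 / (s : ℝ) :=
    one_div_le_one_div_of_le (by exact_mod_cast hs) (by exact_mod_cast hss)
  linarith

/-- a cycle in an ordered bipartite pattern on few vertices -/
theorem exists_short {k : ℕ} (P : SimpleGraph (Fin k)) (hO : OrdBip P) (hk : k ≤ 9)
    (h : ¬ P.IsAcyclic) :
    ∃ r : ℕ, 2 ≤ r ∧ r ≤ 5 ∧ (SimpleGraph.cycleGraph (2 * r)).IsContained P := by
  classical
  rw [SimpleGraph.isAcyclic_iff_free_cycleGraph] at h
  obtain ⟨n, hn, hc⟩ : ∃ n : ℕ, 3 ≤ n ∧ (SimpleGraph.cycleGraph n).IsContained P := by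
    by_contra hcon
    exact h fun n hn hc => hcon ⟨n, hn, hc⟩
  obtain ⟨m, hm⟩ := hO
  have hnk : n ≤ k := by
    obtain ⟨⟨f, hf⟩⟩ := hc
    have := Fintype.card_le_of_injective f hf
    simpa using this
  have hcol : P.Colorable 2 := by
    refine ⟨SimpleGraph.Coloring.mk (fun x => if x.val < m then (0 : Fin 2) else 1) ?_⟩
    intro u v huv
    have := hm u v huv
    by_cases h1 : u.val < m
    · have h2 : ¬ v.val < m := by have := this.1 h1; omega
      rw [if_pos h1, if_neg h2]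
      decide
    · have h2 : v.val < m := by
        by_contra h3
        exact h1 (this.2 (by omega))
      rw [if_neg h1, if_pos h2]
      decide
  have hcol' : (SimpleGraph.cycleGraph n).Colorable 2 := by
    obtain ⟨⟨f, hf⟩⟩ := hc
    exact hcol.of_hom f
  have heven : Even n := by
    by_contra hodd
    rw [Nat.not_even_iff_odd] at hodd
    have h1 := SimpleGraph.chromaticNumber_cycleGraph_of_odd n (by omega) hodd
    have h2 := hcol'.chromaticNumber_le
    rw [h1] at h2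
    exact absurd h2 (by decide)
  obtain ⟨r, hr⟩ := heven
  refine ⟨r, by omega, by omega, ?_⟩
  have : n = 2 * r := by omega
  rw [← this]
  exact hc

/-- patterns with few independent cycles, a short cycle, or few vertices -/
theorem result {k : ℕ} (P : SimpleGraph (Fin k))
    (h : ((FewCycles 2 P ∨ Tracked 2 P) ∧
        ∃ r : ℕ, 2 ≤ r ∧ r ≤ 5 ∧ (SimpleGraph.cycleGraph (2 * r)).IsContained P) ∨
      ((FewCycles 8 P ∨ FewHubs 2 P ∨ Tracked 5 P) ∧
        (SimpleGraph.cycleGraph (2 * 2)).IsContained P) ∨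
      (OrdBip P ∧ 2 ≤ P.edgeSet.ncard ∧ k ≤ 9)) :
    (∀ ε : ℝ, 0 < ε → ∃ N : ℕ, ∀ n : ℕ, N ≤ n → ratio P n ≤ (n : ℝ) ^ ((3 : ℝ) / 10 + ε)) ∧
    Filter.Tendsto (fun n : ℕ => ratio P n / (n : ℝ) ^ ((1 : ℝ) / 3)) Filter.atTop (nhds 0) := by
  classical
  have hA : (FewCycles 2 P ∨ Tracked 2 P) →
      (∃ r : ℕ, 2 ≤ r ∧ r ≤ 5 ∧ (SimpleGraph.cycleGraph (2 * r)).IsContained P) →
      ∀ ε : ℝ, 0 < ε → ∃ N : ℕ, ∀ n : ℕ, N ≤ n →
        ratio P n ≤ (n : ℝ) ^ ((3 : ℝ) / 10 + ε) := by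
    rintro h1 ⟨r, hr, hr5, hc⟩
    have ht : Tracked 2 P := h1.elim (fun h => tracked_of_edges P h.1 2 h.2) id
    exact ratio_bound P (3 / 2) (6 / 5) (by norm_num)
      (tracked_mono 2 2 (by norm_num) le_rfl P ht _ (by norm_num))
      (lower_mono _ P hc _ (ex_lower_ten r hr hr5))
  have hB : (FewCycles 8 P ∨ FewHubs 2 P ∨ Tracked 5 P) →
      (SimpleGraph.cycleGraph (2 * 2)).IsContained P →
      ∀ ε : ℝ, 0 < ε → ∃ N : ℕ, ∀ n : ℕ, N ≤ n →
        ratio P n ≤ (n : ℝ) ^ ((3 : ℝ) / 10 + ε) := by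
    intro h1 hc
    have ht : Tracked 5 P := by
      rcases h1 with h | h | h
      · exact tracked_of_edges P h.1 8 h.2
      · exact fewHubs_tracked 2 P h
      · exact h
    exact ratio_bound P (9 / 5) (3 / 2) (by norm_num)
      (tracked_mono 5 5 (by norm_num) le_rfl P ht _ (by norm_num))
      (lower_mono _ P hc _ ex_lower_four)
  have hmain : ∀ ε : ℝ, 0 < ε → ∃ N : ℕ, ∀ n : ℕ, N ≤ n →
      ratio P n ≤ (n : ℝ) ^ ((3 : ℝ) / 10 + ε) := by
    rcases h with ⟨h1, h2⟩ | ⟨h1, h2⟩ | ⟨hO, hP, hk9⟩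
    · exact hA h1 h2
    · exact hB h1 h2
    · -- at most nine vertices
      have hk : 3 ≤ k := by
        by_contra hc
        have h1 : P.edgeSet.ncard ≤ 1 := by
          rw [← eIn_univ]
          rcases Nat.lt_or_ge k 2 with h | h
          · rw [eIn_one P univ (by rw [card_univ, Fintype.card_fin]; omega)]
            exact Nat.zero_le _
          · exact eIn_two P univ (by rw [card_univ, Fintype.card_fin]; omega)
        omega
      by_cases hac : P.IsAcyclic
      · -- forests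
        have ht : Tracked 1 P := tracked_of_edges P hO 0 ⟨∅, by simp, by
          rw [Finset.coe_empty, SimpleGraph.deleteEdges_empty]; exact hac⟩
        refine ratio_bound P 1 1 (by norm_num)
          (tracked_mono 1 1 (by norm_num) le_rfl P ht _ (by norm_num)) ?_
        refine ⟨1 / 4, by norm_num, 2, fun n hn => ?_⟩
        have hl := linear_lower P hP n
        have h3 : n ≤ 4 * (n / 2) := by omega
        have h4 : n ≤ 4 * SimpleGraph.extremalNumber n P := h3.trans (by omega)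
        have h5 : (n : ℝ) ≤ 4 * (SimpleGraph.extremalNumber n P : ℝ) := by exact_mod_cast h4
        rw [Real.rpow_one]
        linarith
      · -- the least number of edges
        have hex : ∃ r : ℕ, ∃ R : Finset (Sym2 (Fin k)), R.card ≤ r ∧
            (P.deleteEdges (R : Set (Sym2 (Fin k)))).IsAcyclic := by
          refine ⟨P.edgeFinset.card, P.edgeFinset, le_rfl, ?_⟩
          have : P.deleteEdges (P.edgeFinset : Set (Sym2 (Fin k))) = ⊥ := by
            ext a b
            rw [SimpleGraph.deleteEdges_adj]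
            simp
          rw [this]
          exact SimpleGraph.isAcyclic_bot
        obtain ⟨r, hr⟩ : ∃ r, r = Nat.find hex := ⟨_, rfl⟩
        have hRr : ∃ R : Finset (Sym2 (Fin k)), R.card ≤ r ∧
            (P.deleteEdges (R : Set (Sym2 (Fin k)))).IsAcyclic := by
          rw [hr]
          exact Nat.find_spec hex
        have hmin : ∀ R : Finset (Sym2 (Fin k)),
            (P.deleteEdges (R : Set (Sym2 (Fin k)))).IsAcyclic → r ≤ R.card := by
          intro R hR
          rw [hr]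
          exact Nat.find_min' hex ⟨R, le_rfl, hR⟩
        rcases Nat.lt_or_ge r 3 with h3 | h3
        · obtain ⟨R, hR, hRa⟩ := hRr
          exact hA (Or.inl ⟨hO, R, by omega, hRa⟩) (exists_short P hO hk9 hac)
        · rcases Nat.lt_or_ge r 9 with h9 | h9
          · obtain ⟨R, hR, hRa⟩ := hRr
            refine hB (Or.inl ⟨hO, R, by omega, hRa⟩) (small_c4 P hO hk hk9 ?_)
            intro R' hR'
            exact h3.trans (hmin R' hR')
          · -- many independent cycles: a dense part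
            obtain ⟨v, F, hF, hv, he, hd⟩ := dense_part P hk r (by omega) hmin
            have ht := tracked_of_edges P hO r hRr
            have hkR : (k : ℝ) ≤ 9 := by exact_mod_cast hk9
            have hkR3 : (3 : ℝ) ≤ k := by exact_mod_cast hk
            have hrR : (9 : ℝ) ≤ r := by exact_mod_cast h9
            refine ratio_bound P (2 - 1 / (((r + 1) / 2 + 1 : ℕ) : ℝ))
              (2 - ((v : ℝ) - 2) / ((F.edgeSet.ncard : ℝ) - 1)) ?_
              (tracked_mono _ _ (by omega) le_rfl P ht _ le_rfl)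
              (lower_mono F P hF _ (ex_lower_density F _ rfl he hv))
            have h4 : ((k : ℝ) - 2) / ((k : ℝ) - 2 + r) ≤ 7 / (7 + r) := by
              rw [div_le_div_iff₀ (by linarith) (by linarith)]
              nlinarith
            have h5 : (((r + 1) / 2 + 1 : ℕ) : ℝ) ≤ ((r : ℝ) + 3) / 2 := by
              have h6 : 2 * ((r + 1) / 2 + 1) ≤ r + 3 := by omega
              have h7 : 2 * (((r + 1) / 2 + 1 : ℕ) : ℝ) ≤ (r : ℝ) + 3 := by exact_mod_cast h6
              linarith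
            have h6 : (0 : ℝ) < (((r + 1) / 2 + 1 : ℕ) : ℝ) := by positivity
            have h7 : 1 / (((r : ℝ) + 3) / 2) ≤ 1 / (((r + 1) / 2 + 1 : ℕ) : ℝ) :=
              one_div_le_one_div_of_le h6 h5
            have h8 : 7 / (7 + (r : ℝ)) - 1 / (((r : ℝ) + 3) / 2) ≤ 3 / 10 := by
              have h9' : (0 : ℝ) < 7 + r := by linarith
              have h10 : (0 : ℝ) < (r : ℝ) + 3 := by linarith
              have h11 : 1 / (((r : ℝ) + 3) / 2) = 2 / ((r : ℝ) + 3) := by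
                field_simp
              rw [h11, div_sub_div _ _ h9'.ne' h10.ne', div_le_div_iff₀ (by positivity)
                (by norm_num)]
              nlinarith
            linarith
  refine ⟨hmain, ?_⟩
  obtain ⟨N, hN⟩ := hmain (1 / 60) (by norm_num)
  have ht : Filter.Tendsto (fun n : ℕ => (n : ℝ) ^ (-((1 : ℝ) / 60))) Filter.atTop (nhds 0) :=
    (tendsto_rpow_neg_atTop (by norm_num)).comp tendsto_natCast_atTop_atTop
  refine squeeze_zero' ?_ ?_ ht
  · refine Filter.Eventually.of_forall fun n => ?_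
    unfold ratio
    positivity
  · refine Filter.eventually_atTop.2 ⟨max N 1, fun n hn => ?_⟩
    have h1 := hN n ((le_max_left _ _).trans hn)
    have hn1 : 1 ≤ n := (le_max_right _ _).trans hn
    have hn0 : (0 : ℝ) < n := by exact_mod_cast hn1
    rw [div_le_iff₀ (by positivity), ← Real.rpow_add hn0]
    refine h1.trans (le_of_eq ?_)
    congr 1
    norm_num

end Pool.Agent.Results.MP_ac0d5f_co.RatioFewCycles
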