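import Mathlib
import Pool.Agent.H152.TT.Defs
import Pool.Agent.H152.TT.Classes
import Pool.Agent.H152.TT.DenseLower
import Pool.Agent.H152.TT.Deletion
import Pool.Agent.H152.HR.Defs
import Pool.Agent.H152.HR.Side

set_option autoImplicit false

open Finset

namespace Pool.Agent.Results.MP_ac0d5f_co.RatioPart

open H152TT H152HR

/-- an upper bound for the ordered number and a lower bound for the unordered one -/
theorem ratio_of {k : ℕ} (P : SimpleGraph (Fin k)) (α β : ℝ)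
    (hup : ∀ ε : ℝ, 0 < ε → ∃ N : ℕ, ∀ n : ℕ, N ≤ n → ∀ G : SimpleGraph (Fin n),
      ¬ OContains P G → (G.edgeSet.ncard : ℝ) ≤ (n : ℝ) ^ (α + ε))
    (hlow : ∃ c : ℝ, 0 < c ∧ ∃ N : ℕ, ∀ n : ℕ, N ≤ n →
      c * (n : ℝ) ^ β ≤ (SimpleGraph.extremalNumber n P : ℝ))
    (ε : ℝ) (hε : 0 < ε) :
    ∃ N : ℕ, ∀ n : ℕ, N ≤ n → ratio P n ≤ (n : ℝ) ^ (α - β + ε) := by
  obtain ⟨N1, h1⟩ := hup (ε / 2) (by positivity)
  obtain ⟨c, hc, N2, h2⟩ := hlow
  obtain ⟨N3, h3⟩ : ∃ N3 : ℕ, ∀ n : ℕ, N3 ≤ n → 1 / c ≤ (n : ℝ) ^ (ε / 2) := by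
    have ht : Filter.Tendsto (fun n : ℕ => (n : ℝ) ^ (ε / 2)) Filter.atTop Filter.atTop :=
      (tendsto_rpow_atTop (by positivity)).comp tendsto_natCast_atTop_atTop
    exact Filter.eventually_atTop.1 (ht.eventually_ge_atTop (1 / c))
  refine ⟨max (max N1 N2) (max N3 1), fun n hn => ?_⟩
  have hn1 : N1 ≤ n := (le_max_left _ _).trans ((le_max_left _ _).trans hn)
  have hn2 : N2 ≤ n := (le_max_right _ _).trans ((le_max_left _ _).trans hn)
  have hn3 : N3 ≤ n := (le_max_left _ _).trans ((le_max_right _ _).trans hn)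
  have hn4 : 1 ≤ n := (le_max_right _ _).trans ((le_max_right _ _).trans hn)
  have hn0 : (0 : ℝ) < n := by exact_mod_cast hn4
  have hu := exOrd_le P n ((n : ℝ) ^ (α + ε / 2)) (by positivity) (h1 n hn1)
  have hl := h2 n hn2
  have hlpos : 0 < c * (n : ℝ) ^ β := by positivity
  have hexpos : 0 < (SimpleGraph.extremalNumber n P : ℝ) := lt_of_lt_of_le hlpos hl
  unfold ratio
  rw [div_le_iff₀ hexpos]
  refine hu.trans ?_
  have h5 : (n : ℝ) ^ (α + ε / 2) ≤ (n : ℝ) ^ (α - β + ε) * (c * (n : ℝ) ^ β) := by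
    have h7 : (n : ℝ) ^ (α + ε / 2) = (n : ℝ) ^ (α - β + ε) * ((n : ℝ) ^ β /
        (n : ℝ) ^ (ε / 2)) := by
      rw [← Real.rpow_sub hn0, ← Real.rpow_add hn0]
      congr 1
      ring
    rw [h7]
    refine mul_le_mul_of_nonneg_left ?_ (by positivity)
    have h8 := h3 n hn3
    have h9 : 0 < (n : ℝ) ^ (ε / 2) := by positivity
    rw [div_le_iff₀ h9]
    have h10 : 1 ≤ c * (n : ℝ) ^ (ε / 2) := by
      rw [div_le_iff₀ hc] at h8
      linarith
    calc (n : ℝ) ^ β = (n : ℝ) ^ β * 1 := by ring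
      _ ≤ (n : ℝ) ^ β * (c * (n : ℝ) ^ (ε / 2)) := mul_le_mul_of_nonneg_left h10 (by positivity)
      _ = c * (n : ℝ) ^ β * (n : ℝ) ^ (ε / 2) := by ring
  refine h5.trans ?_
  exact mul_le_mul_of_nonneg_left hl (by positivity)

theorem lower_mono {W : Type} {k : ℕ} (C : SimpleGraph W) (P : SimpleGraph (Fin k))
    (hC : C.IsContained P) (β : ℝ)
    (h : ∃ c : ℝ, 0 < c ∧ ∃ N : ℕ, ∀ n : ℕ, N ≤ n →
      c * (n : ℝ) ^ β ≤ (SimpleGraph.extremalNumber n C : ℝ)) :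
    ∃ c : ℝ, 0 < c ∧ ∃ N : ℕ, ∀ n : ℕ, N ≤ n →
      c * (n : ℝ) ^ β ≤ (SimpleGraph.extremalNumber n P : ℝ) := by
  obtain ⟨c, hc, N, h⟩ := h
  refine ⟨c, hc, N, fun n hn => (h n hn).trans ?_⟩
  exact_mod_cast hC.extremalNumber_le

/-- every ordered bipartite pattern on `k` vertices is tracked with `k` tracks on each side -/
theorem tracked_self {k : ℕ} (P : SimpleGraph (Fin k)) (h : OrdBip P) : Tracked k P := by
  obtain ⟨m, hm⟩ := h
  refine ⟨⊤, fun v => v.val, fun v => if v.val < m then v.val else k + v.val, le_top,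
    Fin.val_injective, ?_, ?_, ?_, ?_, ?_⟩
  · intro u v w _ _ _ _ huv
    exact huv
  · intro u
    have := u.isLt
    dsimp only
    split_ifs <;> omega
  · intro u v huv
    have h1 : u.val ≤ v.val := huv
    have := u.isLt
    dsimp only
    split_ifs <;> omega
  · intro u v huv
    have h1 : u.val ≠ v.val := fun h => huv (Fin.ext h)
    have := u.isLt
    have := v.isLt
    dsimp only
    split_ifs <;> omega
  · intro u v huv
    have h1 := hm u v huv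
    have := u.isLt
    have := v.isLt
    dsimp only
    split_ifs <;> omega

theorem tendsto_of {k : ℕ} (P : SimpleGraph (Fin k)) (γ : ℝ) (hγ : γ < 1 / 3)
    (h : ∃ N : ℕ, ∀ n : ℕ, N ≤ n → ratio P n ≤ (n : ℝ) ^ γ) :
    Filter.Tendsto (fun n : ℕ => ratio P n / (n : ℝ) ^ ((1 : ℝ) / 3)) Filter.atTop (nhds 0) := by
  obtain ⟨N, hN⟩ := h
  have ht : Filter.Tendsto (fun n : ℕ => (n : ℝ) ^ (-(1 / 3 - γ))) Filter.atTop (nhds 0) :=
    (tendsto_rpow_neg_atTop (by linarith)).comp tendsto_natCast_atTop_atTop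
  refine squeeze_zero' ?_ ?_ ht
  · refine Filter.Eventually.of_forall fun n => ?_
    unfold ratio
    positivity
  · refine Filter.eventually_atTop.2 ⟨max N 1, fun n hn => ?_⟩
    have h1 := hN n ((le_max_left _ _).trans hn)
    have hn1 : 1 ≤ n := (le_max_right _ _).trans hn
    have hn0 : (0 : ℝ) < n := by exact_mod_cast hn1
    rw [div_le_iff₀ (by positivity), ← Real.rpow_add hn0]
    refine h1.trans (le_of_eq ?_)
    congr 1
    ring

/-- the ratio of a pattern in terms of a part of it -/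
theorem result {k : ℕ} (P : SimpleGraph (Fin k)) :
    (∀ s : ℕ, 1 ≤ s →
      (HubSide s P ∨ (OrdBip P ∧ P.edgeSet.ncard < (s + 1) ^ 2) ∨ Tracked s P) →
      (∀ (v : ℕ) (F : SimpleGraph (Fin v)), F.IsContained P → 2 ≤ F.edgeSet.ncard →
        (∀ ε : ℝ, 0 < ε → ∃ N : ℕ, ∀ n : ℕ, N ≤ n → ratio P n ≤
          (n : ℝ) ^ (((v : ℝ) - 2) / ((F.edgeSet.ncard : ℝ) - 1) - 1 / (s : ℝ) + ε)) ∧
        (((v : ℝ) - 2) / ((F.edgeSet.ncard : ℝ) - 1) < 1 / 3 + 1 / (s : ℝ) →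
          Filter.Tendsto (fun n : ℕ => ratio P n / (n : ℝ) ^ ((1 : ℝ) / 3))
            Filter.atTop (nhds 0))) ∧
      ((completeBipartiteGraph (Fin 3) (Fin 3)).IsContained P →
        ∀ ε : ℝ, 0 < ε → ∃ N : ℕ, ∀ n : ℕ, N ≤ n →
          ratio P n ≤ (n : ℝ) ^ (1 / 3 - 1 / (s : ℝ) + ε))) ∧
    (OrdBip P → ((completeBipartiteGraph (Fin 3) (Fin 3)).IsContained P ∨
        ∃ (v : ℕ) (F : SimpleGraph (Fin v)), F.IsContained P ∧ 2 ≤ F.edgeSet.ncard ∧
          3 * v ≤ F.edgeSet.ncard + 5) →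
      Filter.Tendsto (fun n : ℕ => ratio P n / (n : ℝ) ^ ((1 : ℝ) / 3))
        Filter.atTop (nhds 0)) := by
  classical
  -- a graph with an edge has at least two vertices
  have hv2 : ∀ (v : ℕ) (F : SimpleGraph (Fin v)), 2 ≤ F.edgeSet.ncard → 2 ≤ v := by
    intro v F hF
    obtain ⟨e, he⟩ : F.edgeSet.Nonempty := by
      rw [Set.nonempty_iff_ne_empty]
      intro h
      rw [h, Set.ncard_empty] at hF
      omega
    induction e using Sym2.ind with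
    | _ a b =>
      have hab : F.Adj a b := he
      have h1 : a.val ≠ b.val := fun h => hab.ne (Fin.ext h)
      have := a.isLt
      have := b.isLt
      omega
  have hup : ∀ s : ℕ, 1 ≤ s →
      (HubSide s P ∨ (OrdBip P ∧ P.edgeSet.ncard < (s + 1) ^ 2) ∨ Tracked s P) →
      ∀ ε : ℝ, 0 < ε → ∃ N : ℕ, ∀ n : ℕ, N ≤ n →
      ∀ G : SimpleGraph (Fin n), ¬ OContains P G →
        (G.edgeSet.ncard : ℝ) ≤ (n : ℝ) ^ ((2 - 1 / (s : ℝ)) + ε) := by
    intro s hs ht ε hε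
    rcases ht with ht | ht | ht
    · exact side_upper s hs P ht ε hε
    · exact side_upper s hs P (side_of_edges P ht.1 s ht.2) ε hε
    · exact tracked_upper s hs P ht ε hε
  have hA : ∀ s : ℕ, 1 ≤ s →
      (HubSide s P ∨ (OrdBip P ∧ P.edgeSet.ncard < (s + 1) ^ 2) ∨ Tracked s P) → ∀ (v : ℕ) (F : SimpleGraph (Fin v)),
      F.IsContained P → 2 ≤ F.edgeSet.ncard → ∀ ε : ℝ, 0 < ε → ∃ N : ℕ, ∀ n : ℕ, N ≤ n →
        ratio P n ≤
          (n : ℝ) ^ (((v : ℝ) - 2) / ((F.edgeSet.ncard : ℝ) - 1) - 1 / (s : ℝ) + ε) := by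
    intro s hs ht v F hF he ε hε
    have h1 := ratio_of P (2 - 1 / (s : ℝ)) (2 - ((v : ℝ) - 2) / ((F.edgeSet.ncard : ℝ) - 1))
      (hup s hs ht) (lower_mono F P hF _ (ex_lower_density F _ rfl he (hv2 v F he))) ε hε
    have h2 : (2 - 1 / (s : ℝ)) - (2 - ((v : ℝ) - 2) / ((F.edgeSet.ncard : ℝ) - 1)) + ε =
        ((v : ℝ) - 2) / ((F.edgeSet.ncard : ℝ) - 1) - 1 / (s : ℝ) + ε := by ring
    rw [h2] at h1
    exact h1
  have hB : ∀ s : ℕ, 1 ≤ s →
      (HubSide s P ∨ (OrdBip P ∧ P.edgeSet.ncard < (s + 1) ^ 2) ∨ Tracked s P) →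
      (completeBipartiteGraph (Fin 3) (Fin 3)).IsContained P →
        ∀ ε : ℝ, 0 < ε → ∃ N : ℕ, ∀ n : ℕ, N ≤ n →
          ratio P n ≤ (n : ℝ) ^ (1 / 3 - 1 / (s : ℝ) + ε) := by
    intro s hs ht hK ε hε
    have h1 := ratio_of P (2 - 1 / (s : ℝ)) (5 / 3) (hup s hs ht)
      (lower_mono _ P hK _ ex_lower_K33) ε hε
    have h2 : (2 - 1 / (s : ℝ)) - 5 / 3 + ε = 1 / 3 - 1 / (s : ℝ) + ε := by ring
    rw [h2] at h1
    exact h1
  have hC : ∀ s : ℕ, 1 ≤ s →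
      (HubSide s P ∨ (OrdBip P ∧ P.edgeSet.ncard < (s + 1) ^ 2) ∨ Tracked s P) → ∀ (v : ℕ) (F : SimpleGraph (Fin v)),
      F.IsContained P → 2 ≤ F.edgeSet.ncard →
      ((v : ℝ) - 2) / ((F.edgeSet.ncard : ℝ) - 1) < 1 / 3 + 1 / (s : ℝ) →
        Filter.Tendsto (fun n : ℕ => ratio P n / (n : ℝ) ^ ((1 : ℝ) / 3))
          Filter.atTop (nhds 0) := by
    intro s hs ht v F hF he hlt
    obtain ⟨δ, hδ⟩ : ∃ δ : ℝ, δ = 1 / 3 + 1 / (s : ℝ) -
      ((v : ℝ) - 2) / ((F.edgeSet.ncard : ℝ) - 1) := ⟨_, rfl⟩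
    have hδ0 : 0 < δ := by rw [hδ]; linarith
    refine tendsto_of P _ ?_ (hA s hs ht v F hF he (δ / 2) (by positivity))
    linarith
  refine ⟨fun s hs ht => ⟨fun v F hF he => ⟨hA s hs ht v F hF he, hC s hs ht v F hF he⟩,
    hB s hs ht⟩, ?_⟩
  intro hO h
  have ht : HubSide k P ∨ (OrdBip P ∧ P.edgeSet.ncard < (k + 1) ^ 2) ∨ Tracked k P :=
    Or.inr (Or.inr (tracked_self P hO))
  have hk : 1 ≤ k := by
    rcases h with h | ⟨v, F, ⟨f⟩, he, _⟩
    · obtain ⟨f⟩ := h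
      exact Nat.succ_le_of_lt (lt_of_le_of_lt (Nat.zero_le _) (f (Sum.inl 0)).isLt)
    · have h2 := hv2 v F he
      exact Nat.succ_le_of_lt (lt_of_le_of_lt (Nat.zero_le _) (f ⟨0, by omega⟩).isLt)
  have hk0 : (0 : ℝ) < 1 / (k : ℝ) := by
    have : (0 : ℝ) < k := by exact_mod_cast hk
    positivity
  rcases h with h | ⟨v, F, hF, he, h3⟩
  · refine tendsto_of P _ ?_ (hB k hk ht h (1 / (k : ℝ) / 2) (by positivity))
    linarith
  · refine hC k hk ht v F hF he ?_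
    have he2 : (2 : ℝ) ≤ (F.edgeSet.ncard : ℝ) := by exact_mod_cast he
    have h3R : 3 * (v : ℝ) ≤ (F.edgeSet.ncard : ℝ) + 5 := by exact_mod_cast h3
    have h4 : ((v : ℝ) - 2) / ((F.edgeSet.ncard : ℝ) - 1) ≤ 1 / 3 := by
      rw [div_le_iff₀ (by linarith)]
      linarith
    linarith

end Pool.Agent.Results.MP_ac0d5f_co.RatioPart
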