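import Mathlib
import Pool.Agent.H152.TT.Defs
import Pool.Agent.H152.TT.Defs2
import Pool.Agent.H152.TT.Classes
import Pool.Agent.H152.TT.Cyclo2
import Pool.Agent.H152.TT.Small
import Pool.Agent.H152.TT.Lower
import Pool.Agent.H152.TT.Linear
import Pool.Agent.H152.TT.Deletion
import Pool.Agent.H152.HR.Defs
import Pool.Agent.H152.HR.Side
import Pool.Agent.H152.HR.Small2
import Pool.Agent.H152.HR.Short

set_option autoImplicit false

open Finset

namespace Pool.Agent.Results.MP_ac0d5f_co.RatioSmall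

open H152TT H152HR

/-- an upper bound for the ordered number and a lower bound for the unordered one -/
theorem ratio_bound {k : ℕ} (P : SimpleGraph (Fin k)) (α β : ℝ) (hβ : α - β ≤ 3 / 10)
    (hup : ∀ ε : ℝ, 0 < ε → ∃ N : ℕ, ∀ n : ℕ, N ≤ n → ∀ G : SimpleGraph (Fin n),
      ¬ OContains P G → (G.edgeSet.ncard : ℝ) ≤ (n : ℝ) ^ (α + ε))
    (hlow : ∃ c : ℝ, 0 < c ∧ ∃ N : ℕ, ∀ n : ℕ, N ≤ n →
      c * (n : ℝ) ^ β ≤ (SimpleGraph.extremalNumber n P : ℝ))
    (ε : ℝ) (hε : 0 < ε) :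
    ∃ N : ℕ, ∀ n : ℕ, N ≤ n → ratio P n ≤ (n : ℝ) ^ ((3 : ℝ) / 10 + ε) := by
  obtain ⟨N1, h1⟩ := hup (ε / 2) (by positivity)
  obtain ⟨c, hc, N2, h2⟩ := hlow
  obtain ⟨N3, h3⟩ : ∃ N3 : ℕ, ∀ n : ℕ, N3 ≤ n → 1 / c ≤ (n : ℝ) ^ (ε / 2) := by
    have ht : Filter.Tendsto (fun n : ℕ => (n : ℝ) ^ (ε / 2)) Filter.atTop Filter.atTop :=
      (tendsto_rpow_atTop (by positivity)).comp tendsto_natCast_atTop_atTop
    exact Filter.eventually_atTop.1 (ht.eventually_ge_atTop (1 / c))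
  refine ⟨max (max N1 N2) (max N3 1), fun n hn => ?_⟩
  have hn1 : N1 ≤ n := (le_max_left _ _).trans ((le_max_left _ _).trans hn)
  have hn2 : N2 ≤ n := (le_max_right _ _).trans ((le_max_left _ _).trans hn)
  have hn3 : N3 ≤ n := (le_max_left _ _).trans ((le_max_right _ _).trans hn)
  have hn4 : 1 ≤ n := (le_max_right _ _).trans ((le_max_right _ _).trans hn)
  have hn0 : (0 : ℝ) < n := by exact_mod_cast hn4
  have hn1R : (1 : ℝ) ≤ n := by exact_mod_cast hn4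
  have hu := exOrd_le P n ((n : ℝ) ^ (α + ε / 2)) (by positivity) (h1 n hn1)
  have hl := h2 n hn2
  have hlpos : 0 < c * (n : ℝ) ^ β := by positivity
  have hexpos : 0 < (SimpleGraph.extremalNumber n P : ℝ) := lt_of_lt_of_le hlpos hl
  unfold ratio
  rw [div_le_iff₀ hexpos]
  refine hu.trans ?_
  have h5 : (n : ℝ) ^ (α + ε / 2) ≤ (n : ℝ) ^ ((3 : ℝ) / 10 + ε) * (c * (n : ℝ) ^ β) := by
    have h6 : (n : ℝ) ^ (α + ε / 2) ≤ (n : ℝ) ^ (3 / 10 + ε / 2 + β) :=
      Real.rpow_le_rpow_of_exponent_le hn1R (by linarith)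
    refine h6.trans ?_
    have h7 : (n : ℝ) ^ (3 / 10 + ε / 2 + β) = (n : ℝ) ^ ((3 : ℝ) / 10 + ε) * ((n : ℝ) ^ β /
        (n : ℝ) ^ (ε / 2)) := by
      rw [← Real.rpow_sub hn0, ← Real.rpow_add hn0]
      congr 1
      ring
    rw [h7]
    refine mul_le_mul_of_nonneg_left ?_ (by positivity)
    have h8 := h3 n hn3
    have h9 : 0 < (n : ℝ) ^ (ε / 2) := by positivity
    rw [div_le_iff₀ h9]
    have h10 : 1 ≤ c * (n : ℝ) ^ (ε / 2) := by
      rw [div_le_iff₀ hc] at h8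
      linarith
    calc (n : ℝ) ^ β = (n : ℝ) ^ β * 1 := by ring
      _ ≤ (n : ℝ) ^ β * (c * (n : ℝ) ^ (ε / 2)) := mul_le_mul_of_nonneg_left h10 (by positivity)
      _ = c * (n : ℝ) ^ β * (n : ℝ) ^ (ε / 2) := by ring
  refine h5.trans ?_
  exact mul_le_mul_of_nonneg_left hl (by positivity)

theorem lower_mono {j k : ℕ} (C : SimpleGraph (Fin j)) (P : SimpleGraph (Fin k))
    (hC : C.IsContained P) (β : ℝ)
    (h : ∃ c : ℝ, 0 < c ∧ ∃ N : ℕ, ∀ n : ℕ, N ≤ n →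
      c * (n : ℝ) ^ β ≤ (SimpleGraph.extremalNumber n C : ℝ)) :
    ∃ c : ℝ, 0 < c ∧ ∃ N : ℕ, ∀ n : ℕ, N ≤ n →
      c * (n : ℝ) ^ β ≤ (SimpleGraph.extremalNumber n P : ℝ) := by
  obtain ⟨c, hc, N, h⟩ := h
  refine ⟨c, hc, N, fun n hn => (h n hn).trans ?_⟩
  exact_mod_cast hC.extremalNumber_le

/-- more tracks are allowed -/
theorem tracked_mono {k : ℕ} (s s' : ℕ) (hs : 1 ≤ s) (hss : s ≤ s') (P : SimpleGraph (Fin k))
    (h : Tracked s P) (α : ℝ) (hα : 2 - 1 / (s' : ℝ) ≤ α) (ε : ℝ) (hε : 0 < ε) :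
    ∃ N : ℕ, ∀ n : ℕ, N ≤ n → ∀ G : SimpleGraph (Fin n), ¬ OContains P G →
      (G.edgeSet.ncard : ℝ) ≤ (n : ℝ) ^ (α + ε) := by
  obtain ⟨N, hN⟩ := tracked_upper s hs P h ε hε
  refine ⟨max N 1, fun n hn G hG => ?_⟩
  have hn1 : (1 : ℝ) ≤ n := by exact_mod_cast (le_max_right _ _).trans hn
  refine (hN n ((le_max_left _ _).trans hn) G hG).trans ?_
  refine Real.rpow_le_rpow_of_exponent_le hn1 ?_
  have h1 : 1 / (s' : ℝ) ≤ 1 / (s : ℝ) :=
    one_div_le_one_div_of_le (by exact_mod_cast hs) (by exact_mod_cast hss)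
  linarith

/-- hubs on one side -/
theorem side_mono {k : ℕ} (s : ℕ) (hs : 1 ≤ s) (P : SimpleGraph (Fin k))
    (h : HubSide s P) (α : ℝ) (hα : 2 - 1 / (s : ℝ) ≤ α) (ε : ℝ) (hε : 0 < ε) :
    ∃ N : ℕ, ∀ n : ℕ, N ≤ n → ∀ G : SimpleGraph (Fin n), ¬ OContains P G →
      (G.edgeSet.ncard : ℝ) ≤ (n : ℝ) ^ (α + ε) := by
  obtain ⟨N, hN⟩ := side_upper s hs P h ε hε
  refine ⟨max N 1, fun n hn G hG => ?_⟩
  have hn1 : (1 : ℝ) ≤ n := by exact_mod_cast (le_max_right _ _).trans hn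
  refine (hN n ((le_max_left _ _).trans hn) G hG).trans ?_
  exact Real.rpow_le_rpow_of_exponent_le hn1 (by linarith)

open Classical in
/-- at most eleven vertices: one side has at most five -/
theorem side_five {k : ℕ} (P : SimpleGraph (Fin k)) (hO : OrdBip P) (hk : k ≤ 11) :
    HubSide 5 P := by
  obtain ⟨m, hm⟩ := hO
  have h1 : ((univ : Finset (Fin k)).filter (fun w => w.val < m)).card +
      ((univ : Finset (Fin k)).filter (fun w => ¬ w.val < m)).card = k := by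
    rw [Finset.card_filter_add_card_filter_not, card_univ, Fintype.card_fin]
  by_cases h2 : ((univ : Finset (Fin k)).filter (fun w => w.val < m)).card ≤ 5
  · refine ⟨m, univ.filter (fun w => w.val < m), hm, h2, Or.inl ?_⟩
    intro w hw hwA
    refine absurd ?_ hwA
    rw [mem_filter]
    exact ⟨mem_univ _, hw⟩
  · refine ⟨m, univ.filter (fun w => ¬ w.val < m), hm, by omega, Or.inr ?_⟩
    intro w hw hwA
    refine absurd ?_ hwA
    rw [mem_filter]
    exact ⟨mem_univ _, by omega⟩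

/-- patterns with few independent cycles or few hubs, and small patterns -/
theorem result {k : ℕ} (P : SimpleGraph (Fin k))
    (h : ((HubSide 2 P ∨ FewCycles 2 P ∨ Tracked 2 P) ∧
        ∃ r : ℕ, 2 ≤ r ∧ r ≤ 5 ∧ (SimpleGraph.cycleGraph (2 * r)).IsContained P) ∨
      ((HubSide 5 P ∨ (OrdBip P ∧ P.edgeSet.ncard ≤ 35) ∨ FewCycles 8 P ∨ FewHubs 2 P ∨
        Tracked 5 P) ∧ (SimpleGraph.cycleGraph (2 * 2)).IsContained P) ∨
      (OrdBip P ∧ 2 ≤ P.edgeSet.ncard ∧ (k ≤ 11 ∨ P.edgeSet.ncard ≤ 11))) :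
    (∀ ε : ℝ, 0 < ε → ∃ N : ℕ, ∀ n : ℕ, N ≤ n → ratio P n ≤ (n : ℝ) ^ ((3 : ℝ) / 10 + ε)) ∧
    Filter.Tendsto (fun n : ℕ => ratio P n / (n : ℝ) ^ ((1 : ℝ) / 3)) Filter.atTop (nhds 0) := by
  classical
  have hA : (HubSide 2 P ∨ FewCycles 2 P ∨ Tracked 2 P) →
      (∃ r : ℕ, 2 ≤ r ∧ r ≤ 5 ∧ (SimpleGraph.cycleGraph (2 * r)).IsContained P) →
      ∀ ε : ℝ, 0 < ε → ∃ N : ℕ, ∀ n : ℕ, N ≤ n →
        ratio P n ≤ (n : ℝ) ^ ((3 : ℝ) / 10 + ε) := by
    rintro h1 ⟨r, hr, hr5, hc⟩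
    rcases h1 with h1 | h1
    · exact ratio_bound P (3 / 2) (6 / 5) (by norm_num)
        (side_mono 2 (by norm_num) P h1 _ (by norm_num))
        (lower_mono _ P hc _ (ex_lower_ten r hr hr5))
    · have ht : Tracked 2 P := h1.elim (fun h => tracked_of_edges P h.1 2 h.2) id
      exact ratio_bound P (3 / 2) (6 / 5) (by norm_num)
        (tracked_mono 2 2 (by norm_num) le_rfl P ht _ (by norm_num))
        (lower_mono _ P hc _ (ex_lower_ten r hr hr5))
  have hB : (HubSide 5 P ∨ (OrdBip P ∧ P.edgeSet.ncard ≤ 35) ∨ FewCycles 8 P ∨ FewHubs 2 P ∨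
      Tracked 5 P) → (SimpleGraph.cycleGraph (2 * 2)).IsContained P →
      ∀ ε : ℝ, 0 < ε → ∃ N : ℕ, ∀ n : ℕ, N ≤ n →
        ratio P n ≤ (n : ℝ) ^ ((3 : ℝ) / 10 + ε) := by
    intro h1 hc
    have h2 : HubSide 5 P ∨ Tracked 5 P := by
      rcases h1 with h | h | h | h | h
      · exact Or.inl h
      · exact Or.inl (side_of_edges P h.1 5 (by omega))
      · exact Or.inr (tracked_of_edges P h.1 8 h.2)
      · exact Or.inr (fewHubs_tracked 2 P h)
      · exact Or.inr h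
    rcases h2 with h2 | h2
    · exact ratio_bound P (9 / 5) (3 / 2) (by norm_num)
        (side_mono 5 (by norm_num) P h2 _ (by norm_num))
        (lower_mono _ P hc _ ex_lower_four)
    · exact ratio_bound P (9 / 5) (3 / 2) (by norm_num)
        (tracked_mono 5 5 (by norm_num) le_rfl P h2 _ (by norm_num))
        (lower_mono _ P hc _ ex_lower_four)
  have hmain : ∀ ε : ℝ, 0 < ε → ∃ N : ℕ, ∀ n : ℕ, N ≤ n →
      ratio P n ≤ (n : ℝ) ^ ((3 : ℝ) / 10 + ε) := by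
    rcases h with ⟨h1, h2⟩ | ⟨h1, h2⟩ | ⟨hO, hP, hsm⟩
    · exact hA h1 h2
    · exact hB h1 h2
    · by_cases hac : P.IsAcyclic
      · -- forests
        have ht : Tracked 1 P := tracked_of_edges P hO 0 ⟨∅, by simp, by
          rw [Finset.coe_empty, SimpleGraph.deleteEdges_empty]; exact hac⟩
        refine ratio_bound P 1 1 (by norm_num)
          (tracked_mono 1 1 (by norm_num) le_rfl P ht _ (by norm_num)) ?_
        refine ⟨1 / 4, by norm_num, 2, fun n hn => ?_⟩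
        have hl := linear_lower P hP n
        have h3 : n ≤ 4 * (n / 2) := by omega
        have h4 : n ≤ 4 * SimpleGraph.extremalNumber n P := h3.trans (by omega)
        have h5 : (n : ℝ) ≤ 4 * (SimpleGraph.extremalNumber n P : ℝ) := by exact_mod_cast h4
        rw [Real.rpow_one]
        linarith
      · by_cases hc : (SimpleGraph.cycleGraph (2 * 2)).IsContained P
        · -- a four-cycle
          refine hB ?_ hc
          rcases hsm with hk | he
          · exact Or.inl (side_five P hO hk)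
          · exact Or.inr (Or.inl ⟨hO, by omega⟩)
        · -- no four-cycle
          exact hA (Or.inl (side_small P hO hc hsm)) (exists_short P hO hsm hac)
  refine ⟨hmain, ?_⟩
  obtain ⟨N, hN⟩ := hmain (1 / 60) (by norm_num)
  have ht : Filter.Tendsto (fun n : ℕ => (n : ℝ) ^ (-((1 : ℝ) / 60))) Filter.atTop (nhds 0) :=
    (tendsto_rpow_neg_atTop (by norm_num)).comp tendsto_natCast_atTop_atTop
  refine squeeze_zero' ?_ ?_ ht
  · refine Filter.Eventually.of_forall fun n => ?_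
    unfold ratio
    positivity
  · refine Filter.eventually_atTop.2 ⟨max N 1, fun n hn => ?_⟩
    have h1 := hN n ((le_max_left _ _).trans hn)
    have hn1 : 1 ≤ n := (le_max_right _ _).trans hn
    have hn0 : (0 : ℝ) < n := by exact_mod_cast hn1
    rw [div_le_iff₀ (by positivity), ← Real.rpow_add hn0]
    refine h1.trans (le_of_eq ?_)
    congr 1
    norm_num

end Pool.Agent.Results.MP_ac0d5f_co.RatioSmall
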