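import Mathlib
import Pool.Agent.H152.TT.Defs
import Pool.Agent.H152.TT.Classes
import Pool.Agent.H152.TT.Lower

set_option autoImplicit false

open Finset

namespace Pool.Agent.Results.MP_ac0d5f_co.RatioTreelike

open H152TT

/-- an upper bound for the ordered number and a lower bound for the unordered one -/
theorem ratio_bound {k : ℕ} (P : SimpleGraph (Fin k)) (α β : ℝ) (hβ : α - β ≤ 3 / 10)
    (hup : ∀ ε : ℝ, 0 < ε → ∃ N : ℕ, ∀ n : ℕ, N ≤ n → ∀ G : SimpleGraph (Fin n),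
      ¬ OContains P G → (G.edgeSet.ncard : ℝ) ≤ (n : ℝ) ^ (α + ε))
    (hlow : ∃ c : ℝ, 0 < c ∧ ∃ N : ℕ, ∀ n : ℕ, N ≤ n →
      c * (n : ℝ) ^ β ≤ (SimpleGraph.extremalNumber n P : ℝ))
    (ε : ℝ) (hε : 0 < ε) :
    ∃ N : ℕ, ∀ n : ℕ, N ≤ n → ratio P n ≤ (n : ℝ) ^ ((3 : ℝ) / 10 + ε) := by
  obtain ⟨N1, h1⟩ := hup (ε / 2) (by positivity)
  obtain ⟨c, hc, N2, h2⟩ := hlow
  obtain ⟨N3, h3⟩ : ∃ N3 : ℕ, ∀ n : ℕ, N3 ≤ n → 1 / c ≤ (n : ℝ) ^ (ε / 2) := by
    have ht : Filter.Tendsto (fun n : ℕ => (n : ℝ) ^ (ε / 2)) Filter.atTop Filter.atTop :=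
      (tendsto_rpow_atTop (by positivity)).comp tendsto_natCast_atTop_atTop
    exact Filter.eventually_atTop.1 (ht.eventually_ge_atTop (1 / c))
  refine ⟨max (max N1 N2) (max N3 1), fun n hn => ?_⟩
  have hn1 : N1 ≤ n := (le_max_left _ _).trans ((le_max_left _ _).trans hn)
  have hn2 : N2 ≤ n := (le_max_right _ _).trans ((le_max_left _ _).trans hn)
  have hn3 : N3 ≤ n := (le_max_left _ _).trans ((le_max_right _ _).trans hn)
  have hn4 : 1 ≤ n := (le_max_right _ _).trans ((le_max_right _ _).trans hn)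
  have hn0 : (0 : ℝ) < n := by exact_mod_cast hn4
  have hn1R : (1 : ℝ) ≤ n := by exact_mod_cast hn4
  have hu := exOrd_le P n ((n : ℝ) ^ (α + ε / 2)) (by positivity) (h1 n hn1)
  have hl := h2 n hn2
  have hlpos : 0 < c * (n : ℝ) ^ β := by positivity
  have hexpos : 0 < (SimpleGraph.extremalNumber n P : ℝ) := lt_of_lt_of_le hlpos hl
  unfold ratio
  rw [div_le_iff₀ hexpos]
  refine hu.trans ?_
  have h5 : (n : ℝ) ^ (α + ε / 2) ≤ (n : ℝ) ^ ((3 : ℝ) / 10 + ε) * (c * (n : ℝ) ^ β) := by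
    have h6 : (n : ℝ) ^ (α + ε / 2) ≤ (n : ℝ) ^ (3 / 10 + ε / 2 + β) :=
      Real.rpow_le_rpow_of_exponent_le hn1R (by linarith)
    refine h6.trans ?_
    have h7 : (n : ℝ) ^ (3 / 10 + ε / 2 + β) = (n : ℝ) ^ ((3 : ℝ) / 10 + ε) * ((n : ℝ) ^ β /
        (n : ℝ) ^ (ε / 2)) := by
      rw [← Real.rpow_sub hn0, ← Real.rpow_add hn0]
      congr 1
      ring
    rw [h7]
    refine mul_le_mul_of_nonneg_left ?_ (by positivity)
    have h8 := h3 n hn3
    have h9 : 0 < (n : ℝ) ^ (ε / 2) := by positivity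
    rw [div_le_iff₀ h9]
    have h10 : 1 ≤ c * (n : ℝ) ^ (ε / 2) := by
      rw [div_le_iff₀ hc] at h8
      linarith
    calc (n : ℝ) ^ β = (n : ℝ) ^ β * 1 := by ring
      _ ≤ (n : ℝ) ^ β * (c * (n : ℝ) ^ (ε / 2)) := mul_le_mul_of_nonneg_left h10 (by positivity)
      _ = c * (n : ℝ) ^ β * (n : ℝ) ^ (ε / 2) := by ring
  refine h5.trans ?_
  exact mul_le_mul_of_nonneg_left hl (by positivity)

theorem lower_mono {j k : ℕ} (C : SimpleGraph (Fin j)) (P : SimpleGraph (Fin k))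
    (hC : C.IsContained P) (β : ℝ)
    (h : ∃ c : ℝ, 0 < c ∧ ∃ N : ℕ, ∀ n : ℕ, N ≤ n →
      c * (n : ℝ) ^ β ≤ (SimpleGraph.extremalNumber n C : ℝ)) :
    ∃ c : ℝ, 0 < c ∧ ∃ N : ℕ, ∀ n : ℕ, N ≤ n →
      c * (n : ℝ) ^ β ≤ (SimpleGraph.extremalNumber n P : ℝ) := by
  obtain ⟨c, hc, N, h⟩ := h
  refine ⟨c, hc, N, fun n hn => (h n hn).trans ?_⟩
  exact_mod_cast hC.extremalNumber_le

/-- the ratio is at most `n ^ (3/10 + o(1))` for four classes of patterns -/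
theorem result {k : ℕ} (P : SimpleGraph (Fin k))
    (h : ((OneCycle P ∨ Tracked 2 P) ∧
        ∃ r : ℕ, 2 ≤ r ∧ r ≤ 5 ∧ (SimpleGraph.cycleGraph (2 * r)).IsContained P) ∨
      ((FewHubs 2 P ∨ Tracked 5 P) ∧ (SimpleGraph.cycleGraph (2 * 2)).IsContained P)) :
    (∀ ε : ℝ, 0 < ε → ∃ N : ℕ, ∀ n : ℕ, N ≤ n → ratio P n ≤ (n : ℝ) ^ ((3 : ℝ) / 10 + ε)) ∧
    Filter.Tendsto (fun n : ℕ => ratio P n / (n : ℝ) ^ ((1 : ℝ) / 3)) Filter.atTop (nhds 0) := by
  have hmain : ∀ ε : ℝ, 0 < ε → ∃ N : ℕ, ∀ n : ℕ, N ≤ n →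
      ratio P n ≤ (n : ℝ) ^ ((3 : ℝ) / 10 + ε) := by
    rcases h with ⟨h1, r, hr, hr5, hc⟩ | ⟨h1, hc⟩
    · have hna : ¬ P.IsAcyclic := by
        intro hac
        rw [SimpleGraph.isAcyclic_iff_free_cycleGraph] at hac
        exact hac (2 * r) (by omega) hc
      have ht : Tracked 2 P := h1.elim (fun h => oneCycle_tracked P h hna) id
      refine ratio_bound P (3 / 2) (6 / 5) (by norm_num) ?_ ?_
      · intro ε hε
        obtain ⟨N, hN⟩ := tracked_upper 2 (by norm_num) P ht ε hε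
        refine ⟨N, fun n hn G hG => ?_⟩
        have := hN n hn G hG
        norm_num at this ⊢
        exact this
      · exact lower_mono _ P hc _ (ex_lower_ten r hr hr5)
    · have ht : Tracked 5 P := h1.elim (fun h => fewHubs_tracked 2 P h) id
      refine ratio_bound P (9 / 5) (3 / 2) (by norm_num) ?_ ?_
      · intro ε hε
        obtain ⟨N, hN⟩ := tracked_upper 5 (by norm_num) P ht ε hε
        refine ⟨N, fun n hn G hG => ?_⟩
        have := hN n hn G hG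
        norm_num at this ⊢
        exact this
      · exact lower_mono _ P hc _ ex_lower_four
  refine ⟨hmain, ?_⟩
  obtain ⟨N, hN⟩ := hmain (1 / 60) (by norm_num)
  have ht : Filter.Tendsto (fun n : ℕ => (n : ℝ) ^ (-((1 : ℝ) / 60))) Filter.atTop (nhds 0) :=
    (tendsto_rpow_neg_atTop (by norm_num)).comp tendsto_natCast_atTop_atTop
  refine squeeze_zero' ?_ ?_ ht
  · refine Filter.Eventually.of_forall fun n => ?_
    unfold ratio
    positivity
  · refine Filter.eventually_atTop.2 ⟨max N 1, fun n hn => ?_⟩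
    have h1 := hN n ((le_max_left _ _).trans hn)
    have hn1 : 1 ≤ n := (le_max_right _ _).trans hn
    have hn0 : (0 : ℝ) < n := by exact_mod_cast hn1
    rw [div_le_iff₀ (by positivity), ← Real.rpow_add hn0]
    refine h1.trans (le_of_eq ?_)
    congr 1
    norm_num

end Pool.Agent.Results.MP_ac0d5f_co.RatioTreelike
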